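import Pool.Agent.Y103.Vb.Geom

/-!
# A basis of eigenvectors of the second cohomology: existence
-/

open CategoryTheory AlgebraicGeometry Submodule

universe u v

namespace Pool.Agent.Y103.Vb

open Pool.Agent.H914 Pool.Agent.H914.VarClass Pool.Agent.H914.VarClass.Obj
  Pool.Agent.H914.WeilCohomology Pool.Agent.H281R3.HT Pool.Agent.W552 Pool.Agent.Y103
  Pool.Agent.Y103.Fj

variable {k : Type u} [Field k] {𝒱 : VarClass k} {ops : CycleOps 𝒱}
  {W : WeilCohomology.{u, v} ops} {X : 𝒱.Obj} {D : X.Cycles} {n : ℕ}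
  {b : W.H X →ₗ[W.K] W.H X →ₗ[W.K] W.K} {c s : ℚ} {f : X ⟶ X} {q : ℕ}

/-- A field isomorphic to the complex numbers is algebraically closed. -/
lemma algClosed_of_equiv {K : Type*} [Field K] (ι : K ≃+* ℂ) : IsAlgClosed K := by
  apply IsAlgClosed.of_exists_root
  intro p _ hirr
  have hdeg : (p.map (ι : K →+* ℂ)).degree ≠ 0 := by
    rw [Polynomial.degree_map]
    exact (Polynomial.degree_pos_of_irreducible hirr).ne'
  obtain ⟨z, hz⟩ := IsAlgClosed.exists_root _ hdeg
  refine ⟨ι.symm z, ?_⟩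
  apply ι.injective
  rw [map_zero]
  have h1 := Polynomial.hom_eval₂ p (RingHom.id K) (ι : K →+* ℂ) (ι.symm z)
  rw [RingHom.comp_id] at h1
  rw [Polynomial.IsRoot.def, Polynomial.eval_map] at hz
  have h2 : (ι : K →+* ℂ) (ι.symm z) = z := ι.apply_symm_apply z
  rw [h2, hz] at h1
  exact h1

/-- A rational orthogonal basis of the primitive divisor classes. -/
structure DivBasis (W : WeilCohomology.{u, v} ops) (X : 𝒱.Obj) (D : X.Cycles)
    (b : W.H X →ₗ[W.K] W.H X →ₗ[W.K] W.K) (N : ℕ) (e : Fin N → W.H X) (w : Fin N → ℚ) : Prop where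
  alg : ∀ l, e l ∈ algClasses W X 1
  xi : ∀ l, b (W.cl X D) (e l) = 0
  neg : ∀ l, w l < 0
  orth : ∀ l l', b (e l) (e l') = if l = l' then (w l : W.K) else 0
  span : ∀ a ∈ algClasses W X 1, a ∈ span W.K (insert (W.cl X D) (Set.range e))

namespace Hyp

variable (h : Hyp W X D n b c s f q)

include h

theorem exists_divBasis : ∃ (N : ℕ) (e : Fin N → W.H X) (w : Fin N → ℚ),
    DivBasis W X D b N e w := by
  have hn := h.hn
  have hn1 := h.hn1
  have hD := h.hD
  have hcp := cp_pos hn1 h.H.pos h.hs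
  have hcpK : ((cp n c s : ℚ) : W.K) ≠ 0 := by exact_mod_cast hcp.ne'
  set M : W.H X → Prop := fun x => x ∈ algClasses W X 1 ∧ W.cl X D ^ (2 * n - 1) * x = 0 with hM
  have hMr : RatSub W.K M :=
    { zero := ⟨alg_zero _, mul_zero _⟩
      add := fun {x y} hx hy => ⟨alg_add hx.1 hy.1, by rw [mul_add, hx.2, hy.2, add_zero]⟩
      smul := fun a {x} hx => ⟨alg_smul a hx.1, by rw [mul_smul_comm, hx.2, smul_zero]⟩ }
  have hξ : ∀ r, W.cl X D ^ r ∈ algClasses W X r := pow_alg hD
  have hrat : ∀ x y, x ∈ algClasses W X 1 → y ∈ algClasses W X 1 →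
      ∃ a : ℚ, nform W X D (2 * n - 2) x y = a := by
    intro x y hx hy
    obtain ⟨a, ha⟩ := alg_rat (alg_mul (alg_mul hx hy) (hξ (2 * n - 2)))
      (alg_one (W := W) (X := X))
    rw [bil_apply, mul_one] at ha
    exact ⟨-a, by rw [nform_apply, ha, Rat.cast_neg]⟩
  obtain ⟨N, e, w, he, hw, horth, hspan⟩ := exists_ratBasis hMr (nform W X D (2 * n - 2))
    (fun x y hx hy => hrat x y hx.1 hy.1)
    (by
      intro x y hx _
      rw [nform_apply, nform_apply, alg_even_comm hx.1])
    (by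
      intro x hx hx0
      exact divisor_index hn hn1 hD h.hI hx.1 hx.2 hx0)
  have hbξ : ∀ {x}, M x → b (W.cl X D) x = 0 := by
    intro x hx
    have h1 := tr_xi h.H hn1 hD h.hb (alg_gr hx.1)
    rw [alg_even_comm hx.1, hx.2, map_zero] at h1
    have h2 : ((c * s ^ (n - 1) : ℚ) : W.K) ≠ 0 := by
      have h3 := h.hs
      have h4 := h.H.pos
      have : (0 : ℚ) < c * s ^ (n - 1) := by positivity
      exact_mod_cast this.ne'
    exact (mul_eq_zero.1 h1.symm).resolve_left h2
  refine ⟨N, e, fun l => - (w l / cp n c s), fun l => (he l).1, fun l => hbξ (he l), ?_, ?_, ?_⟩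
  · intro l
    have := div_pos (hw l) hcp
    linarith
  · intro l l'
    have h1 := tr_two h.H hn1 hD h.hb (alg_gr (he l).1) (alg_gr (he l').1) (hbξ (he l))
      (hbξ (he l'))
    have h2 := horth l l'
    rw [nform_apply, h1] at h2
    have h3 : b (e l) (e l') = -((cp n c s : W.K)⁻¹ * -((cp n c s : W.K) * b (e l) (e l'))) := by
      field_simp
    rw [h3, h2]
    split_ifs
    · push_cast
      rw [div_eq_inv_mul]
    · rw [mul_zero, neg_zero]
  · intro a ha
    obtain ⟨r, hr⟩ := alg_rat (alg_mul (hξ (2 * n - 1)) ha) (alg_one (W := W) (X := X))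
    rw [bil_apply, mul_one] at hr
    have hs1 := h.tr_top_ne
    set a' : W.H X := a - ((r / (c * s ^ n) : ℚ) : W.K) • W.cl X D with ha'
    have hbM : M a' := by
      refine ⟨alg_sub ha (alg_smul _ ⟨D, hD, rfl⟩), ?_⟩
      apply top_eq_zero
      · have h1 : W.cl X D ^ (2 * n - 1) * a' ∈ algClasses W X (2 * n - 1 + 1) :=
          alg_mul (hξ _) (alg_sub ha (alg_smul _ ⟨D, hD, rfl⟩))
        have h2 := alg_gr h1
        rwa [show 2 * n - 1 + 1 = X.dim by omega] at h2
      · rw [h.tr_top] at hs1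
        rw [ha', mul_sub, map_sub, hr, mul_smul_comm, map_smul, ← pow_succ,
          show 2 * n - 1 + 1 = 2 * n by omega, h.tr_top, Rat.cast_div, smul_eq_mul,
          div_mul_cancel₀ _ hs1, sub_self]
    obtain ⟨t, ht⟩ := hspan a' (subset_span hbM) (fun l => hrat _ _ hbM.1 (he l).1)
    have h1 : a = a' + ((r / (c * s ^ n) : ℚ) : W.K) • W.cl X D := by rw [ha']; abel
    rw [h1, ht]
    exact add_mem (sum_mem fun l _ => smul_mem _ _ (subset_span (Set.mem_insert_of_mem _ ⟨l, rfl⟩)))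
      (smul_mem _ _ (subset_span (Set.mem_insert _ _)))

end Hyp

/-- A basis of eigenvectors of the transcendental part. -/
structure EigBasis (ι : W.K ≃+* ℂ) (b : W.H X →ₗ[W.K] W.H X →ₗ[W.K] W.K) (f : X ⟶ X) (q r : ℕ)
    (x : Fin r × Bool → W.H X) (lam : Fin r × Bool → W.K) : Prop where
  mem : ∀ p, x p ∈ TT W X b
  eig : ∀ p, (W.map f).toLinearMap (x p) = lam p • x p
  inj : Function.Injective lam
  ne : ∀ p, lam p ≠ 0
  swap : ∀ p : Fin r × Bool, (q : W.K) ^ 2 / lam p = lam (p.1, !p.2)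
  conj : ∀ p : Fin r × Bool, cj ι (lam p) = lam (p.1, !p.2)
  form : ∀ p p' : Fin r × Bool, b (x p) (x p') = if p' = (p.1, !p.2) then (-1 / 2 : W.K) else 0
  span : ∀ y ∈ TT W X b, y ∈ span W.K (Set.range x)
  ne0 : ∀ p, x p ≠ 0

section Decomp

variable {N : ℕ} {e : Fin N → W.H X} {w : Fin N → ℚ} (B : DivBasis W X D b N e w)
  (h : Hyp W X D n b c s f q)

include B h

/-- The decomposition of the second cohomology. -/
lemma decomp {y : W.H X} (hy : y ∈ W.gr X 2) : ∃ t ∈ TT W X b,
    y - t ∈ span W.K (insert (W.cl X D) (Set.range e)) := by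
  have hξa : W.cl X D ∈ algClasses W X 1 := ⟨D, h.hD, rfl⟩
  have hs0 : (s : W.K) ≠ 0 := by exact_mod_cast h.hs.ne'
  have hw0 : ∀ l, (w l : W.K) ≠ 0 := fun l => by exact_mod_cast (B.neg l).ne
  set t : W.H X := y - (b (W.cl X D) y / s) • W.cl X D - ∑ l, (b (e l) y / w l) • e l with ht
  have hd : y - t = (b (W.cl X D) y / s) • W.cl X D + ∑ l, (b (e l) y / w l) • e l := by
    rw [ht]; abel
  have hexi : ∀ l, b (e l) (W.cl X D) = 0 := fun l => by
    rw [h.H.symm _ (alg_gr (B.alg l)) _ h.xi_mem, B.xi]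
  have hmem : t ∈ W.gr X 2 :=
    sub_mem (sub_mem hy (smul_mem _ _ h.xi_mem))
      (sum_mem fun l _ => smul_mem _ _ (alg_gr (B.alg l)))
  have h1 : b (W.cl X D) t = 0 := by
    rw [ht, map_sub, map_sub, map_smul, map_sum, h.hb, smul_eq_mul, div_mul_cancel₀ _ hs0, sub_self,
      zero_sub, neg_eq_zero]
    apply Finset.sum_eq_zero
    intro l _
    rw [map_smul, B.xi, smul_zero]
  have h2 : ∀ l, b (e l) t = 0 := by
    intro l
    rw [ht, map_sub, map_sub, map_smul, map_sum, hexi, smul_zero, sub_zero,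
      Finset.sum_eq_single l, map_smul, B.orth, if_pos rfl, smul_eq_mul, div_mul_cancel₀ _ (hw0 l),
      sub_self]
    · intro l' _ hl'
      rw [map_smul, B.orth, if_neg (Ne.symm hl'), smul_zero]
    · intro h; exact absurd (Finset.mem_univ _) h
  refine ⟨t, ⟨hmem, ?_⟩, ?_⟩
  · intro a ha
    have h3 : ∀ a ∈ span W.K (insert (W.cl X D) (Set.range e)), b t a = 0 := by
      intro a ha
      induction ha using span_induction with
      | mem a ha =>
        rcases ha with rfl | ⟨l, rfl⟩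
        · rw [h.H.symm _ hmem _ h.xi_mem, h1]
        · rw [h.H.symm _ hmem _ (alg_gr (B.alg l)), h2]
      | zero => rw [map_zero]
      | add x y _ _ hx hy => rw [map_add, hx, hy, add_zero]
      | smul c x _ hx => rw [map_smul, hx, smul_zero]
    exact h3 a (B.span a ha)
  · rw [hd]
    exact add_mem (smul_mem _ _ (subset_span (Set.mem_insert _ _)))
      (sum_mem fun l _ => smul_mem _ _ (subset_span (Set.mem_insert_of_mem _ ⟨l, rfl⟩)))

/-- The form is nondegenerate on the transcendental part. -/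
lemma exists_partner {v : W.H X} (hv : v ∈ TT W X b) (hv0 : v ≠ 0) :
    ∃ t ∈ TT W X b, b v t ≠ 0 := by
  by_contra hcon
  push Not at hcon
  apply hv0
  have hn1 := h.hn1
  have hξa : W.cl X D ∈ algClasses W X 1 := ⟨D, h.hD, rfl⟩
  have hvξ : b (W.cl X D) v = 0 := by
    rw [h.H.symm _ h.xi_mem _ hv.1]; exact hv.2 _ hξa
  apply gr2_nondeg h.hn hn1 h.hHL hv.1
  intro y hy
  obtain ⟨t, ht, hyt⟩ := decomp B h hy
  have hξt : b (W.cl X D) t = 0 := by
    rw [h.H.symm _ h.xi_mem _ ht.1]; exact ht.2 _ hξa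
  have e1 : y = (y - t) + t := by abel
  have e2 : W.tr X (v * t * W.cl X D ^ (2 * n - 2)) = 0 := by
    rw [tr_two h.H hn1 h.hD h.hb hv.1 ht.1 hvξ hξt, hcon t ht, mul_zero]
  have e3 : ∀ a ∈ span W.K (insert (W.cl X D) (Set.range e)),
      W.tr X (v * a * W.cl X D ^ (2 * n - 2)) = 0 := by
    intro a ha
    induction ha using span_induction with
    | mem a ha =>
      rcases ha with rfl | ⟨l, rfl⟩
      · rw [mul_assoc, ← pow_succ', show 2 * n - 2 + 1 = 2 * n - 1 by omega,
          tr_xi h.H hn1 h.hD h.hb hv.1, hvξ, mul_zero]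
      · rw [tr_two h.H hn1 h.hD h.hb hv.1 (alg_gr (B.alg l)) hvξ (B.xi l), hv.2 _ (B.alg l),
          mul_zero]
    | zero => rw [mul_zero, zero_mul, map_zero]
    | add x y _ _ hx hy => rw [mul_add, add_mul, map_add, hx, hy, add_zero]
    | smul c x _ hx => rw [mul_smul_comm, smul_mul_assoc, map_smul, hx, smul_zero]
  rw [e1, mul_add, add_mul, map_add, e3 _ hyt, e2, add_zero]

/-- The partner of an eigenvector. -/
lemma exists_conj [IsAlgClosed W.K] {v : W.H X} (hv : v ∈ TT W X b) (hv0 : v ≠ 0) {α : W.K}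
    (hα : (W.map f).toLinearMap v = α • v) : ∃ u ∈ TT W X b,
      (W.map f).toLinearMap u = ((q : W.K) ^ 2 / α) • u ∧ b v u = -1 / 2 := by
  obtain ⟨t, ht, hvt⟩ := exists_partner B h hv hv0
  have h1 := mem_span_eig h.hS ht
  have h2 : ∃ u, (u ∈ TT W X b ∧ u ≠ 0 ∧ ∃ μ : W.K, (W.map f).toLinearMap u = μ • u) ∧
      b v u ≠ 0 := by
    by_contra hcon
    push Not at hcon
    apply hvt
    have h3 : ∀ a ∈ span W.K {u | u ∈ TT W X b ∧ u ≠ 0 ∧
        ∃ μ : W.K, (W.map f).toLinearMap u = μ • u}, b v a = 0 := by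
      intro a ha
      induction ha using span_induction with
      | mem a ha => exact hcon a ha
      | zero => rw [map_zero]
      | add x y _ _ hx hy => rw [map_add, hx, hy, add_zero]
      | smul c x _ hx => rw [map_smul, hx, smul_zero]
    exact h3 t h1
  obtain ⟨u, ⟨huT, hu0, μ, hμ⟩, hbu⟩ := h2
  have h4 := h.orth hv huT hα hμ hbu
  have hα0 : α ≠ 0 := by
    rintro rfl
    rw [zero_mul] at h4
    exact pow_ne_zero 2 h.qK h4.symm
  have h5 : μ = (q : W.K) ^ 2 / α := by
    rw [eq_div_iff hα0, ← h4, mul_comm]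
  refine ⟨(-1 / (2 * b v u)) • u, smul_mem _ _ huT, ?_, ?_⟩
  · rw [map_smul, hμ, smul_comm, h5]
  · rw [map_smul, smul_eq_mul]
    have h2 : (2 : W.K) ≠ 0 := two_ne_zero
    field_simp

/-- A basis of eigenvectors exists. -/
theorem exists_eigBasis (ι : W.K ≃+* ℂ) : ∃ (r : ℕ) (x : Fin r × Bool → W.H X)
    (lam : Fin r × Bool → W.K), EigBasis ι b f q r x lam := by
  classical
  have : IsAlgClosed W.K := algClosed_of_equiv ι
  -- the eigenvalues with positive imaginary part
  set P : Set W.K := {α | 0 < (ι α).im ∧ ∃ v ∈ TT W X b, v ≠ 0 ∧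
    (W.map f).toLinearMap v = α • v} with hP
  have hfin : P.Finite := by
    apply Set.Finite.subset (Module.End.finite_hasEigenvalue (f := (W.map f).toLinearMap))
    rintro α ⟨-, v, -, hv0, hv⟩
    exact Module.End.hasEigenvalue_of_hasEigenvector ⟨Module.End.mem_eigenspace_iff.2 hv, hv0⟩
  have := hfin.fintype
  set r := Fintype.card P with hr
  set E : Fin r ≃ P := (Fintype.equivFin P).symm with hE
  choose v hvT hv0 hv using fun i : Fin r => (E i).2.2
  have hpart := fun i : Fin r => exists_conj B h (hvT i) (hv0 i) (hv i)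
  choose u huT hu hvu using hpart
  set α : Fin r → W.K := fun i => (E i : W.K) with hα
  have hαim : ∀ i, 0 < (ι (α i)).im := fun i => (E i).2.1
  have hconj : ∀ i, cj ι (α i) = (q : W.K) ^ 2 / α i ∧ α i ≠ 0 := fun i =>
    h.conj_eig ι (hvT i).1 (hv0 i) (hv i)
  have hu0 : ∀ i, u i ≠ 0 := by
    intro i h0
    have := hvu i
    rw [h0, map_zero] at this
    have h2 : (-1 / 2 : W.K) ≠ 0 := by norm_num
    exact h2 this.symm
  set x : Fin r × Bool → W.H X := fun p => if p.2 then u p.1 else v p.1 with hx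
  set lam : Fin r × Bool → W.K := fun p => if p.2 then (q : W.K) ^ 2 / α p.1 else α p.1 with hlam
  have hq2 : (q : W.K) ^ 2 ≠ 0 := pow_ne_zero _ h.qK
  have hxT : ∀ p, x p ∈ TT W X b := by
    rintro ⟨i, _ | _⟩
    · exact hvT i
    · exact huT i
  have hxe : ∀ p, (W.map f).toLinearMap (x p) = lam p • x p := by
    rintro ⟨i, _ | _⟩
    · exact hv i
    · exact hu i
  have hlim : ∀ i, (ι ((q : W.K) ^ 2 / α i)).im < 0 := by
    intro i
    rw [← (hconj i).1, cj_apply, ι.apply_symm_apply, Complex.conj_im]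
    have := hαim i
    linarith
  have hinj : Function.Injective lam := by
    rintro ⟨i, _ | _⟩ ⟨i', _ | _⟩ hh
    · have : α i = α i' := hh
      have h1 : i = i' := E.injective (Subtype.ext this)
      rw [h1]
    · exfalso
      have h1 := hαim i
      have h2 := hlim i'
      have : α i = (q : W.K) ^ 2 / α i' := hh
      rw [this] at h1
      linarith
    · exfalso
      have h1 := hαim i'
      have h2 := hlim i
      have : (q : W.K) ^ 2 / α i = α i' := hh
      rw [this] at h2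
      linarith
    · have h0 : (q : W.K) ^ 2 / α i = (q : W.K) ^ 2 / α i' := hh
      have h1 : cj ι (α i) = cj ι (α i') := by rw [(hconj i).1, (hconj i').1, h0]
      have : α i = α i' := by
        rw [← cj_cj ι (α i), h1, cj_cj]
      have h2 : i = i' := E.injective (Subtype.ext this)
      rw [h2]
  have hne : ∀ p, lam p ≠ 0 := by
    rintro ⟨i, _ | _⟩
    · exact (hconj i).2
    · exact div_ne_zero hq2 (hconj i).2
  have hswap : ∀ p : Fin r × Bool, (q : W.K) ^ 2 / lam p = lam (p.1, !p.2) := by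
    rintro ⟨i, _ | _⟩
    · rfl
    · change (q : W.K) ^ 2 / ((q : W.K) ^ 2 / α i) = α i
      rw [div_div_cancel₀ hq2]
  have hx0 : ∀ p, x p ≠ 0 := by
    rintro ⟨i, _ | _⟩
    · exact hv0 i
    · exact hu0 i
  refine ⟨r, x, lam, hxT, hxe, hinj, hne, hswap, ?_, ?_, ?_, hx0⟩
  · rintro ⟨i, _ | _⟩
    · exact (hconj i).1
    · change cj ι ((q : W.K) ^ 2 / α i) = α i
      rw [← (hconj i).1, cj_cj]
  · rintro p p'
    by_cases hp : p' = (p.1, !p.2)
    · rw [if_pos hp, hp]
      rcases p with ⟨i, _ | _⟩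
      · exact hvu i
      · change b (u i) (v i) = -1 / 2
        rw [h.H.symm _ (huT i).1 _ (hvT i).1]
        exact hvu i
    · rw [if_neg hp]
      by_contra h0
      apply hp
      have h1 := h.orth (hxT p) (hxT p') (hxe p) (hxe p') h0
      apply hinj
      rw [← hswap p, eq_div_iff (hne p), mul_comm]
      exact h1
  · intro y hy
    have h1 := mem_span_eig h.hS hy
    refine span_induction ?_ (zero_mem _) (fun _ _ _ _ => add_mem)
      (fun a _ _ => smul_mem _ a) h1
    rintro z ⟨hzT, hz0, β, hβ⟩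
    have him := h.im_ne ι hzT hz0 hβ
    rcases lt_or_gt_of_ne him with hlt | hgt
    · -- negative imaginary part
      obtain ⟨hc1, hc2⟩ := h.conj_eig ι hzT.1 hz0 hβ
      obtain ⟨z', hz'T, hz', hzz'⟩ := exists_conj B h hzT hz0 hβ
      have hz'0 : z' ≠ 0 := by
        rintro rfl
        rw [map_zero] at hzz'
        have h2 : (-1 / 2 : W.K) ≠ 0 := by norm_num
        exact h2 hzz'.symm
      have hmem : (q : W.K) ^ 2 / β ∈ P := by
        refine ⟨?_, z', hz'T, hz'0, hz'⟩
        rw [← hc1, cj_apply, ι.apply_symm_apply, Complex.conj_im]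
        linarith
      set i := E.symm ⟨_, hmem⟩ with hi
      have hαi : α i = (q : W.K) ^ 2 / β := by
        rw [hα]
        simp only [hi, Equiv.apply_symm_apply]
      have hui := hu i
      change (W.map f).toLinearMap (u i) = ((q : W.K) ^ 2 / α i) • u i at hui
      rw [hαi, div_div_cancel₀ hq2] at hui
      obtain ⟨a, ha⟩ := proportional_on h.hS (huT i) hzT hui hβ (hu0 i)
      rw [ha]
      exact smul_mem _ _ (subset_span ⟨(i, true), rfl⟩)
    · have hmem : β ∈ P := ⟨hgt, z, hzT, hz0, hβ⟩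
      set i := E.symm ⟨_, hmem⟩ with hi
      have hαi : α i = β := by
        rw [hα]
        simp only [hi, Equiv.apply_symm_apply]
      have hvi := hv i
      change (W.map f).toLinearMap (v i) = α i • v i at hvi
      rw [hαi] at hvi
      obtain ⟨a, ha⟩ := proportional_on h.hS (hvT i) hzT hvi hβ (hv0 i)
      rw [ha]
      exact smul_mem _ _ (subset_span ⟨(i, false), rfl⟩)

end Decomp

end Pool.Agent.Y103.Vb
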