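import Pool.Agent.Y103.Vb.Defs
import Pool.Agent.Y103.Fj.Hk

/-!
# Coefficients of the Fujiki relation over the coefficient field
-/

open CategoryTheory AlgebraicGeometry Submodule

universe u v

namespace Pool.Agent.Y103.Vb

open Pool.Agent.H914 Pool.Agent.H914.VarClass Pool.Agent.H914.VarClass.Obj
  Pool.Agent.H914.WeilCohomology Pool.Agent.H281R3.HT Pool.Agent.W552 Pool.Agent.Y103
  Pool.Agent.Y103.Fj

variable {k : Type u} [Field k] {𝒱 : VarClass k} {ops : CycleOps 𝒱}
  {W : WeilCohomology.{u, v} ops} {X : 𝒱.Obj} {D : X.Cycles} {n : ℕ}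
  {b : W.H X →ₗ[W.K] W.H X →ₗ[W.K] W.K} {c s : ℚ}

/-- The Fujiki relation. -/
structure RawFujiki (W : WeilCohomology.{u, v} ops) (X : 𝒱.Obj) (n : ℕ)
    (b : W.H X →ₗ[W.K] W.H X →ₗ[W.K] W.K) (c : ℚ) : Prop where
  symm : ∀ x ∈ W.gr X 2, ∀ y ∈ W.gr X 2, b x y = b y x
  pos : 0 < c
  rel : ∀ x ∈ W.gr X 2, W.tr X (x ^ (2 * n)) = (c : W.K) * b x x ^ n

lemma gr2_comm {x : W.H X} (hx : x ∈ W.gr X 2) (y : W.H X) : x * y = y * x :=
  W.even_comm (p := 1) hx y

lemma cl_gr2 (hD : X.IsCyc 1 D) : W.cl X D ∈ W.gr X 2 := W.cl_mem hD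

/-- The coefficients of the Fujiki relation. -/
lemma coef (H : RawFujiki W X n b c) (hD : X.IsCyc 1 D) {x : W.H X} (hx : x ∈ W.gr X 2)
    {l : ℕ} (hl : l < 2 * n + 1) :
    ((2 * n).choose l : W.K) * W.tr X (x ^ l * W.cl X D ^ (2 * n - l)) =
      (c : W.K) * (quadPow (b (W.cl X D) (W.cl X D)) (2 * b (W.cl X D) x) (b x x) n).coeff l := by
  have hξ := cl_gr2 (W := W) hD
  have h1 : ∀ s : ℚ, ∑ l ∈ Finset.range (2 * n + 1), s ^ l •
      (((2 * n).choose l : W.K) * W.tr X (x ^ l * W.cl X D ^ (2 * n - l)) -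
      (c : W.K) * (quadPow (b (W.cl X D) (W.cl X D)) (2 * b (W.cl X D) x) (b x x) n).coeff l) =
        0 := by
    intro s
    have h2 := H.rel (W.cl X D + (s : W.K) • x) (add_mem hξ (smul_mem _ _ hx))
    have h3 : b (W.cl X D + (s : W.K) • x) (W.cl X D + (s : W.K) • x) =
        b (W.cl X D) (W.cl X D) + 2 * b (W.cl X D) x * s + b x x * (s : W.K) ^ 2 := by
      simp only [map_add, map_smul, LinearMap.add_apply, LinearMap.smul_apply, smul_eq_mul]
      rw [H.symm x hx _ hξ]
      ring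
    rw [h3, ← eval_quadPow] at h2
    have hcomm : Commute ((s : W.K) • x) (W.cl X D) :=
      (show Commute x (W.cl X D) from gr2_comm hx _).smul_left _
    rw [add_comm (W.cl X D), hcomm.add_pow, map_sum] at h2
    simp only [smul_sub, Finset.sum_sub_distrib]
    rw [sub_eq_zero]
    calc ∑ l ∈ Finset.range (2 * n + 1), s ^ l •
          (((2 * n).choose l : W.K) * W.tr X (x ^ l * W.cl X D ^ (2 * n - l)))
        = ∑ l ∈ Finset.range (2 * n + 1), W.tr X (((s : W.K) • x) ^ l *
            W.cl X D ^ (2 * n - l) * ((2 * n).choose l : W.H X)) := by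
          apply Finset.sum_congr rfl
          intro l _
          have h4 : ((s : W.K) • x) ^ l * W.cl X D ^ (2 * n - l) *
              ((2 * n).choose l : W.H X) = ((s : W.K) ^ l * ((2 * n).choose l : W.K)) •
                (x ^ l * W.cl X D ^ (2 * n - l)) := by
            rw [smul_pow, smul_mul_assoc, smul_mul_assoc, mul_smul]
            congr 1
            rw [← nsmul_eq_mul', Nat.cast_smul_eq_nsmul]
          rw [h4, map_smul, smul_eq_mul, mul_assoc, Rat.smul_def, Rat.cast_pow]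
      _ = _ := h2
      _ = _ := by
          rw [Finset.mul_sum]
          apply Finset.sum_congr rfl
          intro l _
          rw [Rat.smul_def]
          push_cast
          ring
  have h5 := coeff_eq_zero h1 hl
  rwa [sub_eq_zero] at h5

/-- The factor between the two forms. -/
noncomputable def cp (n : ℕ) (c s : ℚ) : ℚ := c * (n * s ^ (n - 1)) / (2 * n).choose 2

lemma cp_pos (hn1 : 1 ≤ n) (hc : 0 < c) (hs : 0 < s) : 0 < cp n c s := by
  rw [cp]
  have h1 : 0 < (2 * n).choose 2 := Nat.choose_pos (by omega)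
  have h2 : (0 : ℚ) < (2 * n).choose 2 := by exact_mod_cast h1
  have h3 : (0 : ℚ) < n := by exact_mod_cast hn1
  positivity

/-- The product with the power of the divisor. -/
lemma tr_xi (H : RawFujiki W X n b c) (hn1 : 1 ≤ n) (hD : X.IsCyc 1 D)
    (hb : b (W.cl X D) (W.cl X D) = (s : W.K)) {x : W.H X} (hx : x ∈ W.gr X 2) :
    W.tr X (x * W.cl X D ^ (2 * n - 1)) = ((c * s ^ (n - 1) : ℚ) : W.K) * b (W.cl X D) x := by
  have h1 := coef H hD hx (l := 1) (by omega)
  rw [pow_one, quadPow_coeff_one, Nat.choose_one_right, hb] at h1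
  have h2 : ((2 * n : ℕ) : W.K) ≠ 0 := by
    have : 2 * n ≠ 0 := by omega
    exact_mod_cast this
  have h3 : ((2 * n : ℕ) : W.K) * W.tr X (x * W.cl X D ^ (2 * n - 1)) =
      ((2 * n : ℕ) : W.K) * (((c * s ^ (n - 1) : ℚ) : W.K) * b (W.cl X D) x) := by
    rw [h1]
    push_cast
    ring
  exact mul_left_cancel₀ h2 h3

/-- The square of an element orthogonal to the divisor. -/
lemma tr_sq (H : RawFujiki W X n b c) (hn1 : 1 ≤ n) (hD : X.IsCyc 1 D)
    (hb : b (W.cl X D) (W.cl X D) = (s : W.K)) {x : W.H X} (hx : x ∈ W.gr X 2)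
    (h0 : b (W.cl X D) x = 0) :
    W.tr X (x ^ 2 * W.cl X D ^ (2 * n - 2)) = (cp n c s : W.K) * b x x := by
  have h1 := coef H hD hx (l := 2) (by omega)
  rw [h0, mul_zero, quadPow_coeff_two, hb] at h1
  have h2 : (((2 * n).choose 2 : ℕ) : W.K) ≠ 0 := by
    have : 0 < (2 * n).choose 2 := Nat.choose_pos (by omega)
    exact_mod_cast this.ne'
  have h2' : (((2 * n).choose 2 : ℕ) : ℚ) ≠ 0 := by
    have : 0 < (2 * n).choose 2 := Nat.choose_pos (by omega)
    exact_mod_cast this.ne'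
  have h4 : (((2 * n).choose 2 : ℕ) : W.K) * (cp n c s : W.K) =
      ((c * (n * s ^ (n - 1)) : ℚ) : W.K) := by
    rw [cp, Rat.cast_div, Rat.cast_natCast, mul_div_cancel₀ _ h2]
  have h3 : (((2 * n).choose 2 : ℕ) : W.K) * W.tr X (x ^ 2 * W.cl X D ^ (2 * n - 2)) =
      (((2 * n).choose 2 : ℕ) : W.K) * ((cp n c s : W.K) * b x x) := by
    rw [h1, ← mul_assoc (((2 * n).choose 2 : ℕ) : W.K), h4]
    push_cast
    ring
  exact mul_left_cancel₀ h2 h3

/-- The form on elements orthogonal to the divisor. -/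
lemma tr_two (H : RawFujiki W X n b c) (hn1 : 1 ≤ n) (hD : X.IsCyc 1 D)
    (hb : b (W.cl X D) (W.cl X D) = (s : W.K)) {x y : W.H X} (hx : x ∈ W.gr X 2)
    (hy : y ∈ W.gr X 2) (h0 : b (W.cl X D) x = 0) (h1 : b (W.cl X D) y = 0) :
    W.tr X (x * y * W.cl X D ^ (2 * n - 2)) = (cp n c s : W.K) * b x y := by
  have e1 := tr_sq H hn1 hD hb (add_mem hx hy) (by rw [map_add, h0, h1, add_zero])
  have e2 := tr_sq H hn1 hD hb hx h0
  have e3 := tr_sq H hn1 hD hb hy h1
  have hxy : (x + y) ^ 2 = x ^ 2 + y ^ 2 + (x * y + x * y) := by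
    have := gr2_comm hx y
    rw [pow_two, pow_two, pow_two, add_mul, mul_add, mul_add, ← this]
    abel
  rw [hxy, add_mul, add_mul, add_mul, map_add, map_add, map_add, e2, e3] at e1
  simp only [map_add, LinearMap.add_apply] at e1
  rw [H.symm y hy x hx] at e1
  have h2 : (2 : W.K) ≠ 0 := two_ne_zero
  have e4 : 2 * W.tr X (x * y * W.cl X D ^ (2 * n - 2)) = 2 * ((cp n c s : W.K) * b x y) := by
    linear_combination e1
  exact mul_left_cancel₀ h2 e4

/-- The second cohomology: nondegeneracy. -/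
lemma gr2_nondeg (hn : X.dim = 2 * n) (hn1 : 1 ≤ n) (hHL : HardLefschetz W X D) {x : W.H X}
    (hx : x ∈ W.gr X 2) (h : ∀ y ∈ W.gr X 2, W.tr X (x * y * W.cl X D ^ (2 * n - 2)) = 0) :
    x = 0 := by
  apply W.nondeg
  intro y
  have key : ∀ i, ∀ y ∈ W.gr X i, W.tr X (x * y) = 0 := by
    intro i y hy
    by_cases hi : i = 2 * X.dim - 2
    · subst hi
      obtain ⟨a, ha, rfl⟩ := (hHL 2 (by omega)).2 y hy
      rw [mulLeft_pow_apply', show X.dim - 2 = 2 * n - 2 by omega,
        ← gr2_comm ha (W.cl X D ^ (2 * n - 2)), ← mul_assoc]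
      exact h a ha
    · exact W.tr_eq_zero (W.mul_mem hx hy) (by omega)
  have h1 : y = ∑ i ∈ Finset.range (2 * X.dim + 1), proj (W.isInternal X) i y := by
    have h2 : (∑ i ∈ Finset.range (2 * X.dim + 1), proj (W.isInternal X) i) = 1 := by
      apply gr_ext (W.isInternal X)
      intro i a ha
      rw [LinearMap.sum_apply, Module.End.one_apply]
      by_cases hi : i < 2 * X.dim + 1
      · rw [Finset.sum_eq_single i]
        · exact proj_same _ ha
        · intro j _ hj
          exact proj_ne _ ha (Ne.symm hj)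
        · intro hi'; exact absurd (Finset.mem_range.2 hi) hi'
      · rw [W.gr_eq_bot X i (by omega)] at ha
        rw [(Submodule.mem_bot _).1 ha]
        simp
    have h3 := congrArg (fun F => F y) h2
    simp only [LinearMap.sum_apply, Module.End.one_apply] at h3
    exact h3.symm
  rw [h1, Finset.mul_sum, map_sum]
  apply Finset.sum_eq_zero
  intro i _
  exact key i _ (proj_mem _ _ _)

end Pool.Agent.Y103.Vb
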