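import Pool.Agent.H914R2.PDefs
import Pool.Agent.Y103.HRDefs

/-!
# The second cohomology of varieties with a Fujiki relation: definitions
-/

open CategoryTheory AlgebraicGeometry

universe u v

namespace Pool.Agent.Y103.Vb

open Pool.Agent.H914 Pool.Agent.H914.VarClass Pool.Agent.H914.VarClass.Obj
  Pool.Agent.H914.WeilCohomology

section Alg

variable {K : Type*} [Field K] {V : Type*} [AddCommGroup V] [Module K V]

/-- The eigenvalues of the operator `F` on the subspace `T` satisfy only the obvious
multiplicative relations with at most `n` factors: if a product of `l ≤ n` of them is `q ^ l`, up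
to a root of unity, then it is a product of pairs `α`, `q ^ 2 / α`. (For `l = 1`: no eigenvalue is
`q` times a root of unity. For `l = 2`: if `α * β` is `q ^ 2` times a root of unity then
`α * β = q ^ 2`.) -/
def NeatUpTo (F : Module.End K V) (T : Submodule K V) (q n : ℕ) : Prop :=
  ∀ s : Multiset K, s.card ≤ n → (∀ α ∈ s, ∃ v ∈ T, v ≠ 0 ∧ F v = α • v) → ∀ m ≥ 1,
    s.prod ^ m = (q : K) ^ (m * s.card) → ∃ t : Multiset K, s = t + t.map (fun α => (q : K) ^ 2 / α)

section Form

variable {A : Type*} [Ring A] [Algebra K A]

/-- Bilinear forms on an algebra `A` over a field `K`. -/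
abbrev BForm (K A : Type*) [Field K] [Ring A] [Algebra K A] := A →ₗ[K] A →ₗ[K] K

/-- The value of the form. -/
def formVal (b : BForm K A) (x y : A) : K := b x y

/-- The form `b` is symmetric on the subspace `H` of the algebra `A` with the functional `tr`, the
rational number `c` is positive, and `tr (x ^ (2 n)) = c * b (x, x) ^ n` for all `x` in `H`. -/
structure IsFujikiForm (H : Submodule K A) (tr : A →ₗ[K] K) (n : ℕ) (b : BForm K A) (c : ℚ) :
    Prop where
  symm : ∀ x ∈ H, ∀ y ∈ H, formVal b x y = formVal b y x
  pos : 0 < c
  rel : ∀ x ∈ H, tr (x ^ (2 * n)) = (c : K) * formVal b x x ^ n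

/-- The elements `x` of the subspace `H` with `b (x, a) = 0` for all `a` in the set `C`. -/
def orthIn (H : Submodule K A) (b : BForm K A) (C : Set A) : Submodule K A :=
  H ⊓ ⨅ a ∈ C, LinearMap.ker (b.flip a)

/-- The number `b (ξ, ξ)` is rational and positive. -/
def PositiveAt (b : BForm K A) (ξ : A) : Prop := ∃ s : ℚ, 0 < s ∧ formVal b ξ ξ = (s : K)

end Form

end Alg

variable {k : Type u} [Field k] {𝒱 : VarClass k} {ops : CycleOps 𝒱}

/-- The bilinear forms on the cohomology of `X`. -/
abbrev CForm (W : WeilCohomology.{u, v} ops) (X : 𝒱.Obj) := BForm W.K (W.H X)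

/-- The Fujiki relation for the variety `X` of dimension `2 n`, the form `b` on its second
cohomology and the positive rational number `c`: `tr (x ^ (2 n)) = c * b (x, x) ^ n` for `x` in
`H^2(X)`. -/
def FujikiRelation (W : WeilCohomology.{u, v} ops) (X : 𝒱.Obj) (n : ℕ) (b : CForm W X) (c : ℚ) :
    Prop := IsFujikiForm (W.gr X 2) (W.tr X) n b c

/-- The value of the form at the divisor `D` is rational and positive. -/
def PositiveOn (W : WeilCohomology.{u, v} ops) (X : 𝒱.Obj) (b : CForm W X) (D : X.Cycles) :
    Prop := PositiveAt b (W.cl X D)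

/-- The transcendental part of the second cohomology: the orthogonal complement of the classes of
divisors in `H^2(X)`, with respect to the form `b`. -/
def transTwo (W : WeilCohomology.{u, v} ops) (X : 𝒱.Obj) (b : CForm W X) :
    Submodule W.K (W.H X) := orthIn (W.gr X 2) b (algClasses W X 1)

/-- The Riemann hypothesis for the action of `f` on `H^2(X)`. -/
def WeightTwo (W : WeilCohomology.{u, v} ops) (X : 𝒱.Obj) (f : X ⟶ X) (q : ℕ) : Prop :=
  HasWeight (W.map f).toLinearMap (W.gr X 2) ((q : ℝ) ^ 2)

/-- The operator `f^*` preserves the transcendental part of `H^2(X)`, and its characteristic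
polynomial on it is squarefree. -/
def SimpleTwo (W : WeilCohomology.{u, v} ops) (X : 𝒱.Obj) (b : CForm W X) (f : X ⟶ X) : Prop :=
  SquarefreeOn (W.map f).toLinearMap (transTwo W X b)

/-- The eigenvalues of `f^*` on the transcendental part of `H^2(X)` satisfy only the obvious
multiplicative relations with at most `n` factors. -/
def NeatTwo (W : WeilCohomology.{u, v} ops) (X : 𝒱.Obj) (b : CForm W X) (f : X ⟶ X) (q n : ℕ) :
    Prop := NeatUpTo (W.map f).toLinearMap (transTwo W X b) q n

/-- The homogeneous elements of degree at most `2 n` of the subalgebra of the cohomology of `X`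
generated by the second cohomology (the degree is twice the number of factors). -/
def InVerbitsky (W : WeilCohomology.{u, v} ops) (X : 𝒱.Obj) (n : ℕ) (x : W.H X) : Prop :=
  InRing W.K (fun _ => (W.gr X 2 : Set (W.H X))) 1 n x

end Pool.Agent.Y103.Vb
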