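import Pool.Agent.H914R2.PDefs

/-!
# Operators with squarefree characteristic polynomial
-/

open Module

namespace Pool.Agent.Y103.Vb

variable {K V : Type*} [Field K] [AddCommGroup V] [Module K V] [Module.Finite K V]

section Whole

variable {G : Module.End K V}

lemma finrank_le_one (h : Squarefree G.charpoly) (μ : K) :
    finrank K (G.maxGenEigenspace μ) ≤ 1 := by
  rw [LinearMap.finrank_maxGenEigenspace_eq]
  have h0 : G.charpoly ≠ 0 := G.charpoly_monic.ne_zero
  by_contra h1
  push Not at h1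
  have h2 : (Polynomial.X - Polynomial.C μ) ^ 2 ∣ G.charpoly :=
    (Polynomial.le_rootMultiplicity_iff h0).1 h1
  rw [pow_two] at h2
  have h3 := h _ h2
  exact Polynomial.not_isUnit_X_sub_C μ h3

omit [Module.Finite K V] in
lemma mem_maxGen {μ : K} {v : V} (hv : G v = μ • v) : v ∈ G.maxGenEigenspace μ :=
  (G.genEigenspace μ).mono le_top (Module.End.mem_eigenspace_iff.2 hv)

/-- Two eigenvectors with the same eigenvalue are proportional. -/
lemma proportional (h : Squarefree G.charpoly) {μ : K} {v w : V} (hv : G v = μ • v)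
    (hw : G w = μ • w) (hv0 : v ≠ 0) : ∃ s : K, w = s • v := by
  have h1 := finrank_le_one h μ
  have h2 := finrank_le_one_iff.1 h1
  obtain ⟨u, hu⟩ := h2
  obtain ⟨a, ha⟩ := hu ⟨v, mem_maxGen hv⟩
  obtain ⟨b, hb⟩ := hu ⟨w, mem_maxGen hw⟩
  have ha' : a • (u : V) = v := congrArg Subtype.val ha
  have hb' : b • (u : V) = w := congrArg Subtype.val hb
  have ha0 : a ≠ 0 := by
    rintro rfl
    rw [zero_smul] at ha'
    exact hv0 ha'.symm
  exact ⟨b * a⁻¹, by rw [← ha', smul_smul, mul_assoc, inv_mul_cancel₀ ha0, mul_one, hb']⟩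

/-- The eigenvectors span the space. -/
lemma span_eig [IsAlgClosed K] (h : Squarefree G.charpoly) :
    Submodule.span K {v : V | ∃ μ : K, G v = μ • v} = ⊤ := by
  rw [eq_top_iff, ← Module.End.iSup_maxGenEigenspace_eq_top G]
  apply iSup_le
  intro μ v hv
  apply Submodule.subset_span
  refine ⟨μ, ?_⟩
  by_cases hv0 : v = 0
  · rw [hv0, map_zero, smul_zero]
  -- there is an eigenvector
  have h1 := finrank_le_one_iff.1 (finrank_le_one h μ)
  obtain ⟨u, hu⟩ := h1
  obtain ⟨k, hk⟩ := (Module.End.mem_maxGenEigenspace G μ v).1 hv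
  -- the operator `G - μ` preserves the space, so it acts on it by a scalar, which is zero
  have hGv : (G - μ • 1) v ∈ G.maxGenEigenspace μ := by
    rw [Module.End.mem_maxGenEigenspace]
    refine ⟨k, ?_⟩
    rw [← Module.End.mul_apply, ← pow_succ, pow_succ', Module.End.mul_apply, hk, map_zero]
  obtain ⟨a, ha⟩ := hu ⟨v, hv⟩
  obtain ⟨b, hb⟩ := hu ⟨_, hGv⟩
  have ha' : a • (u : V) = v := congrArg Subtype.val ha
  have hb' : b • (u : V) = (G - μ • 1) v := congrArg Subtype.val hb
  have ha0 : a ≠ 0 := by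
    rintro rfl
    rw [zero_smul] at ha'
    exact hv0 ha'.symm
  have hc : (G - μ • 1) v = (b * a⁻¹) • v := by
    rw [← hb', ← ha', smul_smul, mul_assoc, inv_mul_cancel₀ ha0, mul_one]
  have hpow : ∀ m : ℕ, ((G - μ • 1) ^ m) v = (b * a⁻¹) ^ m • v := by
    intro m
    induction m with
    | zero => simp
    | succ m ih =>
      rw [pow_succ', Module.End.mul_apply, ih, map_smul, hc, smul_smul, pow_succ]
  rw [hpow k] at hk
  have h0 : b * a⁻¹ = 0 := eq_zero_of_pow_eq_zero ((smul_eq_zero.1 hk).resolve_right hv0)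
  rw [h0, zero_smul] at hc
  have h5 : G v - μ • v = 0 := by simpa using hc
  exact sub_eq_zero.1 h5

end Whole

open Pool.Agent.H914

variable {F : Module.End K V} {T : Submodule K V}

lemma proportional_on (h : SquarefreeOn F T) {μ : K} {v w : V} (hvT : v ∈ T) (hwT : w ∈ T)
    (hv : F v = μ • v) (hw : F w = μ • w) (hv0 : v ≠ 0) : ∃ s : K, w = s • v := by
  obtain ⟨hT, hsq⟩ := h
  obtain ⟨s, hs⟩ := proportional (G := F.restrict hT) hsq (μ := μ) (v := ⟨v, hvT⟩) (w := ⟨w, hwT⟩)
    (Subtype.ext hv) (Subtype.ext hw) (fun h0 => hv0 (congrArg Subtype.val h0))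
  exact ⟨s, congrArg Subtype.val hs⟩

/-- The subspace is spanned by eigenvectors. -/
lemma mem_span_eig [IsAlgClosed K] (h : SquarefreeOn F T) {x : V} (hx : x ∈ T) :
    x ∈ Submodule.span K {v : V | v ∈ T ∧ v ≠ 0 ∧ ∃ μ : K, F v = μ • v} := by
  obtain ⟨hT, hsq⟩ := h
  have h1 : (⟨x, hx⟩ : T) ∈ Submodule.span K {v : T | ∃ μ : K, (F.restrict hT) v = μ • v} := by
    rw [span_eig hsq]
    trivial
  have key : ∀ y : T, y ∈ Submodule.span K {v : T | ∃ μ : K, (F.restrict hT) v = μ • v} →
      (y : V) ∈ Submodule.span K {v : V | v ∈ T ∧ v ≠ 0 ∧ ∃ μ : K, F v = μ • v} := by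
    intro y hy
    induction hy using Submodule.span_induction with
    | mem y hy =>
      obtain ⟨μ, hμ⟩ := hy
      by_cases h0 : (y : V) = 0
      · rw [h0]; exact Submodule.zero_mem _
      · exact Submodule.subset_span ⟨y.2, h0, μ, congrArg Subtype.val hμ⟩
    | zero => exact Submodule.zero_mem _
    | add a b _ _ ha hb => exact Submodule.add_mem _ ha hb
    | smul c a _ ha => exact Submodule.smul_mem _ _ ha
  exact key _ h1

end Pool.Agent.Y103.Vb
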