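import Pool.Agent.Y103.Fj.Abs

/-!
# Fujiki relations in a basis of eigenvectors
-/

open Submodule

namespace Pool.Agent.Y103.Vb

open Pool.Agent.Y103.Fj

section Field

variable {K : Type*} [Field K] (ι : K ≃+* ℂ)

/-- The complex conjugation of the coefficient field. -/
noncomputable def cj : K →+* K :=
  ((ι.symm : ℂ →+* K).comp (starRingEnd ℂ)).comp (ι : K →+* ℂ)

lemma cj_apply (s : K) : cj ι s = ι.symm (starRingEnd ℂ (ι s)) := rfl

lemma cj_cj (s : K) : cj ι (cj ι s) = s := by
  rw [cj_apply, cj_apply, ι.apply_symm_apply, Complex.conj_conj, ι.symm_apply_apply]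

/-- The imaginary unit. -/
noncomputable def im : K := ι.symm Complex.I

lemma im_mul : im ι * im ι = -1 := by
  rw [im, ← map_mul, Complex.I_mul_I, map_neg, map_one]

lemma cj_im : cj ι (im ι) = -im ι := by
  rw [cj_apply, im, ι.apply_symm_apply, Complex.conj_I, map_neg]

/-- The coefficient field as an algebra over the real numbers. -/
@[reducible] noncomputable def realK : Algebra ℝ K :=
  ((ι.symm : ℂ →+* K).comp (algebraMap ℝ ℂ)).toAlgebra

lemma real_apply (r : ℝ) :
    letI := realK ι
    algebraMap ℝ K r = ι.symm (r : ℂ) := rfl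

lemma cj_real (r : ℝ) :
    letI := realK ι
    cj ι (algebraMap ℝ K r) = algebraMap ℝ K r := by
  let _ := realK ι
  rw [real_apply, cj_apply, ι.apply_symm_apply, Complex.conj_ofReal]

lemma exists_real {s : K} (h : cj ι s = s) :
    letI := realK ι
    ∃ r : ℝ, s = algebraMap ℝ K r := by
  let _ := realK ι
  refine ⟨(ι s).re, ?_⟩
  rw [real_apply, cj_apply] at *
  have h1 : starRingEnd ℂ (ι s) = ι s := by
    rw [← ι.apply_symm_apply (starRingEnd ℂ (ι s)), h]
  rw [Complex.conj_eq_iff_re.1 h1, ι.symm_apply_apply]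

lemma cj_rat (a : ℚ) : cj ι (a : K) = a := by
  rw [cj_apply, map_ratCast, map_ratCast, map_ratCast]

end Field

/-- The index set of the bases. -/
abbrev Idx (N r : ℕ) := Option (Fin N) ⊕ (Fin r × Bool)

/-- The exchange of conjugate eigenvectors. -/
def swp {N r : ℕ} : Idx N r → Idx N r
  | Sum.inl l => Sum.inl l
  | Sum.inr p => Sum.inr (p.1, !p.2)

variable {K : Type*} [Field K] [CharZero K] (ι : K ≃+* ℂ) {A : Type*} [CommRing A] [Algebra K A]
  {N r : ℕ}

/-- The real basis attached to a basis of eigenvectors. -/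
noncomputable def rb (g : Idx N r → A) : Idx N r → A
  | Sum.inl l => g (Sum.inl l)
  | Sum.inr (i, false) => g (Sum.inr (i, false)) + g (Sum.inr (i, true))
  | Sum.inr (i, true) => im ι • (g (Sum.inr (i, false)) - g (Sum.inr (i, true)))

/-- The coefficients of the quadratic form in the real basis. -/
def kap (w : Option (Fin N) → ℝ) : Idx N r → ℝ
  | Sum.inl l => w l
  | Sum.inr _ => -1

/-- A basis of eigenvectors for a Fujiki relation. -/
structure EigData (n : ℕ) (tr : A →ₗ[K] K) (b : A →ₗ[K] A →ₗ[K] K) (g : Idx N r → A)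
    (w : Option (Fin N) → ℝ) (c : ℝ) : Prop where
  wpos : 0 < w none
  wneg : ∀ l, w (some l) < 0
  cpos : 0 < c
  dd : ∀ l l', b (g (Sum.inl l)) (g (Sum.inl l')) = if l = l' then ι.symm (w l : ℂ) else 0
  dx : ∀ l p, b (g (Sum.inl l)) (g (Sum.inr p)) = 0
  xd : ∀ l p, b (g (Sum.inr p)) (g (Sum.inl l)) = 0
  xx : ∀ p p' : Fin r × Bool, b (g (Sum.inr p)) (g (Sum.inr p')) =
    if p' = (p.1, !p.2) then (-1 / 2 : K) else 0
  rel : ∀ x ∈ span K (Set.range g), tr (x ^ (2 * n)) = ι.symm (c : ℂ) * b x x ^ n

namespace EigData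

variable {ι} {n : ℕ} {tr : A →ₗ[K] K} {b : A →ₗ[K] A →ₗ[K] K} {g : Idx N r → A}
  {w : Option (Fin N) → ℝ} {c : ℝ} (E : EigData ι n tr b g w c)

include E

lemma table (s t : Idx N r) : b (rb ι g s) (rb ι g t) =
    if s = t then ι.symm (kap w s : ℂ) else 0 := by
  have h2 : (2 : K) ≠ 0 := two_ne_zero
  rcases s with l | ⟨i, _ | _⟩ <;> rcases t with l' | ⟨i', _ | _⟩
  · rw [rb, rb, E.dd]
    simp only [Sum.inl.injEq, kap]
  · rw [rb, rb, map_add, E.dx, E.dx, add_zero, if_neg (by simp)]
  · rw [rb, rb, map_smul, map_sub, E.dx, E.dx, sub_zero, smul_zero, if_neg (by simp)]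
  · rw [rb, rb, map_add, LinearMap.add_apply, E.xd, E.xd, add_zero, if_neg (by simp)]
  · rw [rb, rb, map_add, map_add, LinearMap.add_apply, LinearMap.add_apply, E.xx, E.xx, E.xx, E.xx]
    by_cases h : i = i'
    · subst h
      simp only [kap]
      simp
    · simp [h, Ne.symm h]
  · rw [rb, rb, map_smul, map_sub, map_add, LinearMap.add_apply, LinearMap.add_apply, E.xx, E.xx,
      E.xx, E.xx]
    by_cases h : i = i'
    · subst h
      simp
    · simp [h, Ne.symm h]
  · rw [rb, rb, map_smul, LinearMap.smul_apply, map_sub, LinearMap.sub_apply, E.xd, E.xd, sub_zero,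
      smul_zero, if_neg (by simp)]
  · rw [rb, rb, map_smul, LinearMap.smul_apply, map_sub, LinearMap.sub_apply, map_add, map_add,
      E.xx, E.xx, E.xx, E.xx]
    by_cases h : i = i'
    · subst h
      simp
    · simp [h, Ne.symm h]
  · rw [rb, rb]
    simp only [map_smul, LinearMap.smul_apply, map_sub, LinearMap.sub_apply, E.xx]
    by_cases h : i = i'
    · subst h
      simp only [kap]
      simp
      have := im_mul ι
      linear_combination this
    · simp [h, Ne.symm h]

/-- The real basis satisfies the Fujiki relation. -/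
theorem isFujiki :
    letI := realK ι
    letI : Algebra ℝ A := Algebra.compHom A (algebraMap ℝ K)
    IsFujiki n tr (rb ι g) (Sum.inl none) (kap w) c := by
  let _ := realK ι
  let _ : Algebra ℝ A := Algebra.compHom A (algebraMap ℝ K)
  have hT : IsScalarTower ℝ K A := IsScalarTower.of_algebraMap_eq (fun _ => rfl)
  refine ⟨E.wpos, ?_, E.cpos, ?_⟩
  · rintro (l | p) h
    · rcases l with _ | l
      · exact absurd rfl h
      · exact E.wneg l
    · simp only [kap]
      norm_num
  · intro t
    have hs : ∀ (a : ℝ) (x : A), a • x = ι.symm (a : ℂ) • x := by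
      intro a x
      rw [← algebraMap_smul K a x]
      rfl
    have hmem : ∀ s, rb ι g s ∈ span K (Set.range g) := by
      have hg : ∀ s, g s ∈ span K (Set.range g) := fun s => subset_span ⟨s, rfl⟩
      rintro (l | ⟨i, _ | _⟩)
      · exact hg _
      · exact add_mem (hg _) (hg _)
      · exact smul_mem _ _ (sub_mem (hg _) (hg _))
    rw [E.rel _ (sum_mem fun s _ => by rw [hs]; exact smul_mem _ _ (hmem s)), map_mul, map_pow,
      real_apply, real_apply]
    congr 2
    simp only [hs, map_sum, LinearMap.sum_apply, map_smul, LinearMap.smul_apply, E.table,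
      smul_eq_mul]
    push_cast
    rw [map_sum]
    apply Finset.sum_congr rfl
    intro s _
    rw [Finset.sum_eq_single s]
    · rw [if_pos rfl, map_mul, map_pow]
      ring
    · intro t' _ ht'
      rw [if_neg ht', mul_zero]
    · intro h; exact absurd (Finset.mem_univ _) h

end EigData

section Pair

variable {ι} {g : Idx N r → A}

/-- The products of the elements of a multiset. -/
noncomputable def mp (g : Idx N r → A) (s : Multiset (Idx N r)) : A := (s.map g).prod

lemma mp_zero : mp g 0 = 1 := by simp [mp]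

lemma mp_cons (a : Idx N r) (s : Multiset (Idx N r)) : mp g (a ::ₘ s) = g a * mp g s := by
  simp [mp]

lemma mp_add (s t : Multiset (Idx N r)) : mp g (s + t) = mp g s * mp g t := by
  simp [mp]

omit [CharZero K] in
/-- Products of elements of the real basis are combinations of products of eigenvectors. -/
lemma mp_rb_mem (s : Multiset (Idx N r)) : mp (rb ι g) s ∈
    span K {y | ∃ t : Multiset (Idx N r), t.card = s.card ∧ y = mp g t} := by
  induction s using Multiset.induction_on with
  | empty =>
    rw [mp_zero]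
    exact subset_span ⟨0, rfl, mp_zero.symm⟩
  | cons a s ih =>
    rw [mp_cons, Multiset.card_cons]
    have key : ∀ p : Idx N r, g p * mp (rb ι g) s ∈
        span K {y | ∃ t : Multiset (Idx N r), t.card = s.card + 1 ∧ y = mp g t} := by
      intro p
      generalize mp (rb ι g) s = z at ih
      induction ih using span_induction with
      | mem y hy =>
        obtain ⟨t, ht, rfl⟩ := hy
        exact subset_span ⟨p ::ₘ t, by rw [Multiset.card_cons, ht], (mp_cons p t).symm⟩
      | zero => rw [mul_zero]; exact zero_mem _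
      | add x y _ _ hx hy => rw [mul_add]; exact add_mem hx hy
      | smul c x _ hx => rw [mul_smul_comm]; exact smul_mem _ _ hx
    rcases a with l | ⟨i, _ | _⟩
    · exact key _
    · rw [rb, add_mul]
      exact add_mem (key _) (key _)
    · rw [rb, smul_mul_assoc, sub_mul]
      exact smul_mem _ _ (sub_mem (key _) (key _))

/-- The values of a functional on products of elements of the real basis. -/
lemma conj_mixed {ℓ : A →ₗ[K] K} {j : ℕ}
    (h : ∀ s : Multiset (Idx N r), s.card = j → cj ι (ℓ (mp g s)) = ℓ (mp g (s.map swp))) :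
    ∀ s t : Multiset (Idx N r), s.card + t.card = j →
      cj ι (ℓ (mp (rb ι g) s * mp g t)) = ℓ (mp (rb ι g) s * mp g (t.map swp)) := by
  intro s
  induction s using Multiset.induction_on with
  | empty =>
    intro t ht
    rw [mp_zero, one_mul, one_mul]
    exact h t (by simpa using ht)
  | cons a s ih =>
    intro t ht
    rw [Multiset.card_cons] at ht
    have key : ∀ p : Idx N r, cj ι (ℓ (g p * (mp (rb ι g) s * mp g t))) =
        ℓ (g (swp p) * (mp (rb ι g) s * mp g (t.map swp))) := by
      intro p
      have := ih (p ::ₘ t) (by rw [Multiset.card_cons]; omega)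
      rw [Multiset.map_cons, mp_cons, mp_cons] at this
      rw [mul_left_comm, this, mul_left_comm]
    rw [mp_cons, mul_assoc, mul_assoc]
    rcases a with l | ⟨i, _ | _⟩
    · exact key _
    · rw [rb, add_mul, add_mul, ℓ.map_add, ℓ.map_add, map_add, key, key]
      simp only [swp, Bool.not_false, Bool.not_true]
      rw [add_comm]
    · rw [rb, smul_mul_assoc, smul_mul_assoc, sub_mul, sub_mul, ℓ.map_smul, ℓ.map_smul, ℓ.map_sub,
        ℓ.map_sub, smul_eq_mul, smul_eq_mul, map_mul, map_sub, key, key, cj_im]
      simp only [swp, Bool.not_false, Bool.not_true]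
      ring

end Pair

section Aeval

variable {g : Idx N r → A}

lemma aeval_monomial_mp [Algebra ℝ A] (e : Idx N r → A) (α : Idx N r →₀ ℕ) :
    MvPolynomial.aeval e (MvPolynomial.monomial α (1 : ℝ)) = mp e (Finsupp.toMultiset α) := by
  rw [MvPolynomial.aeval_monomial, map_one, one_mul, mp, Finsupp.toMultiset_map,
    Finsupp.prod_toMultiset, Finsupp.prod_mapDomain_index (fun _ => pow_zero _)
      (fun _ _ _ => pow_add _ _ _)]

lemma card_toMultiset' (α : Idx N r →₀ ℕ) : (Finsupp.toMultiset α).card = ∑ i, α i := by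
  rw [Finsupp.card_toMultiset, Finsupp.sum_fintype _ _ (fun _ => rfl)]
  rfl

/-- A polynomial is a real combination of products. -/
lemma aeval_eq_sum [Algebra ℝ A] (e : Idx N r → A) (f : MvPolynomial (Idx N r) ℝ) :
    MvPolynomial.aeval e f =
      ∑ α ∈ f.support, MvPolynomial.coeff α f • mp e (Finsupp.toMultiset α) := by
  conv_lhs => rw [f.as_sum, map_sum]
  apply Finset.sum_congr rfl
  intro α _
  rw [← aeval_monomial_mp, ← map_smul, MvPolynomial.smul_monomial, smul_eq_mul, mul_one]

end Aeval

section Final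

variable {ι} {n : ℕ} {tr : A →ₗ[K] K} {b : A →ₗ[K] A →ₗ[K] K} {g : Idx N r → A}
  {w : Option (Fin N) → ℝ} {c : ℝ} (E : EigData ι n tr b g w c) {j : ℕ}

/-- The space of the products of eigenvectors. -/
def Pr (K : Type*) [Field K] {A : Type*} [CommRing A] [Algebra K A] {N r : ℕ} (g : Idx N r → A)
    (j : ℕ) : Submodule K A :=
  span K {y | ∃ t : Multiset (Idx N r), t.card = j ∧ y = mp g t}

omit [CharZero K] in
lemma aeval_mem_Pr :
    letI := realK ι
    letI : Algebra ℝ A := Algebra.compHom A (algebraMap ℝ K)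
    ∀ f : MvPolynomial (Idx N r) ℝ, Hom j f → MvPolynomial.aeval (rb ι g) f ∈ Pr K g j := by
  let _ := realK ι
  let _ : Algebra ℝ A := Algebra.compHom A (algebraMap ℝ K)
  have hT : IsScalarTower ℝ K A := IsScalarTower.of_algebraMap_eq (fun _ => rfl)
  intro f hf
  rw [aeval_eq_sum]
  apply sum_mem
  intro α hα
  have h1 := mp_rb_mem (ι := ι) (g := g) (Finsupp.toMultiset α)
  rw [card_toMultiset', hf α (MvPolynomial.mem_support_iff.1 hα)] at h1
  rw [← algebraMap_smul K]
  exact smul_mem _ _ h1

lemma Pr_mem_aeval :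
    letI := realK ι
    letI : Algebra ℝ A := Algebra.compHom A (algebraMap ℝ K)
    ∀ {x : A}, x ∈ Pr K g j →
      x ∈ span K {y | ∃ f : MvPolynomial (Idx N r) ℝ, Hom j f ∧
        y = MvPolynomial.aeval (rb ι g) f} := by
  let _ := realK ι
  let _ : Algebra ℝ A := Algebra.compHom A (algebraMap ℝ K)
  have hT : IsScalarTower ℝ K A := IsScalarTower.of_algebraMap_eq (fun _ => rfl)
  intro x hx
  have hh : (2 : K) ≠ 0 := two_ne_zero
  have key : ∀ s : Multiset (Idx N r), mp g s ∈
      span K {y | ∃ f : MvPolynomial (Idx N r) ℝ, Hom s.card f ∧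
        y = MvPolynomial.aeval (rb ι g) f} := by
    intro s
    induction s using Multiset.induction_on with
    | empty =>
      apply subset_span
      refine ⟨1, ?_, by rw [mp_zero, map_one]⟩
      intro α hα
      classical
      rw [MvPolynomial.coeff_one] at hα
      have h : 0 = α := by
        by_contra h
        rw [if_neg h] at hα
        exact hα rfl
      rw [← h]
      simp
    | cons a s ih =>
      rw [mp_cons, Multiset.card_cons]
      have h1 : ∀ p : Idx N r, rb ι g p * mp g s ∈
          span K {y | ∃ f : MvPolynomial (Idx N r) ℝ, Hom (s.card + 1) f ∧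
            y = MvPolynomial.aeval (rb ι g) f} := by
        intro p
        generalize mp g s = z at ih
        induction ih using span_induction with
        | mem y hy =>
          obtain ⟨f, hf, rfl⟩ := hy
          refine subset_span ⟨MvPolynomial.X p * f, ?_, by rw [map_mul, MvPolynomial.aeval_X]⟩
          have := (hom_X (F := ℝ) p).mul hf
          rwa [add_comm] at this
        | zero => rw [mul_zero]; exact zero_mem _
        | add x y _ _ hx hy => rw [mul_add]; exact add_mem hx hy
        | smul c x _ hx => rw [mul_smul_comm]; exact smul_mem _ _ hx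
      have hI := im_mul ι
      rcases a with l | ⟨i, _ | _⟩
      · exact h1 (Sum.inl l)
      · have e1 : g (Sum.inr (i, false)) * mp g s =
            (1 / 2 : K) • (rb ι g (Sum.inr (i, false)) * mp g s) -
              (im ι / 2) • (rb ι g (Sum.inr (i, true)) * mp g s) := by
          rw [← smul_mul_assoc, ← smul_mul_assoc, ← sub_mul]
          congr 1
          rw [rb, rb, smul_smul, show im ι / 2 * im ι = -(1 / 2) by linear_combination hI / 2,
            neg_smul, sub_neg_eq_add, ← smul_add, add_add_sub_cancel, ← two_smul K, smul_smul,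
            one_div, inv_mul_cancel₀ hh, one_smul]
        rw [e1]
        exact sub_mem (smul_mem _ _ (h1 _)) (smul_mem _ _ (h1 _))
      · have e1 : g (Sum.inr (i, true)) * mp g s =
            (1 / 2 : K) • (rb ι g (Sum.inr (i, false)) * mp g s) +
              (im ι / 2) • (rb ι g (Sum.inr (i, true)) * mp g s) := by
          rw [← smul_mul_assoc, ← smul_mul_assoc, ← add_mul]
          congr 1
          rw [rb, rb, smul_smul, show im ι / 2 * im ι = -(1 / 2) by linear_combination hI / 2,
            neg_smul, ← sub_eq_add_neg, ← smul_sub, add_sub_sub_cancel, ← two_smul K, smul_smul,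
            one_div, inv_mul_cancel₀ hh, one_smul]
        rw [e1]
        exact add_mem (smul_mem _ _ (h1 _)) (smul_mem _ _ (h1 _))
  induction hx using span_induction with
  | mem y hy =>
    obtain ⟨t, rfl, rfl⟩ := hy
    exact key t
  | zero => exact zero_mem _
  | add x y _ _ hx hy => exact add_mem hx hy
  | smul c x _ hx => exact smul_mem _ _ hx

include E in
/-- **Positivity.** -/
theorem pos_abs (hj : j ≤ n) {z : A} (hz : z ∈ Pr K g j)
    (h : ∀ s : Multiset (Idx N r), s.card = j →
      cj ι (tr (z * mp g s * g (Sum.inl none) ^ (2 * n - 2 * j))) =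
        tr (z * mp g (s.map swp) * g (Sum.inl none) ^ (2 * n - 2 * j)))
    (hp : ∀ s : Multiset (Idx N r), s.card + 1 = j →
      tr (z * (g (Sum.inl none) * mp g s) * g (Sum.inl none) ^ (2 * n - 2 * j)) = 0)
    (hz0 : z ≠ 0) :
    ∃ a : ℝ, 0 < a ∧
      (-1) ^ j * tr (z * z * g (Sum.inl none) ^ (2 * n - 2 * j)) = ι.symm (a : ℂ) := by
  let _ := realK ι
  let _ : Algebra ℝ A := Algebra.compHom A (algebraMap ℝ K)
  have hT : IsScalarTower ℝ K A := IsScalarTower.of_algebraMap_eq (fun _ => rfl)
  have H := E.isFujiki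
  set ℓ : A →ₗ[K] K := tr ∘ₗ LinearMap.mulRight K (g (Sum.inl none) ^ (2 * n - 2 * j)) ∘ₗ
    LinearMap.mulLeft K z with hℓ
  have hℓ' : ∀ a, ℓ a = tr (z * a * g (Sum.inl none) ^ (2 * n - 2 * j)) := fun a => rfl
  refine H.prim_pos hj (Pr_mem_aeval hz) ?_ ?_ hz0
  · intro f hf
    have h1 := conj_mixed (ι := ι) (g := g) (ℓ := ℓ) (j := j) (fun s hs => h s hs)
    have h2 : cj ι (ℓ (MvPolynomial.aeval (rb ι g) f)) = ℓ (MvPolynomial.aeval (rb ι g) f) := by
      rw [aeval_eq_sum, map_sum, map_sum]
      apply Finset.sum_congr rfl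
      intro α hα
      have h3 := h1 (Finsupp.toMultiset α) 0 (by
        rw [card_toMultiset', hf α (MvPolynomial.mem_support_iff.1 hα)]
        simp)
      rw [Multiset.map_zero, mp_zero, mul_one] at h3
      rw [← algebraMap_smul K, map_smul, smul_eq_mul, map_mul, cj_real, h3]
    exact exists_real ι h2
  · intro j' hj' f hf
    have h1 := aeval_mem_Pr (ι := ι) (g := g) f hf
    have h2 : ∀ y ∈ Pr K g j', tr (z * (g (Sum.inl none) * y) *
        g (Sum.inl none) ^ (2 * n - 2 * j)) = 0 := by
      intro y hy
      induction hy using span_induction with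
      | mem y hy =>
        obtain ⟨t, ht, rfl⟩ := hy
        exact hp t (by omega)
      | zero => rw [mul_zero, mul_zero, zero_mul, map_zero]
      | add x y _ _ hx hy => rw [mul_add, mul_add, add_mul, map_add, hx, hy, add_zero]
      | smul c x _ hx => rw [mul_smul_comm, mul_smul_comm, smul_mul_assoc, map_smul, hx, smul_zero]
    exact h2 _ h1

include E in
/-- **Nondegeneracy.** -/
theorem nd_abs (hj : j ≤ n) {z : A} (hz : z ∈ Pr K g j)
    (h : ∀ s : Multiset (Idx N r), s.card = j →
      tr (z * mp g s * g (Sum.inl none) ^ (2 * n - 2 * j)) = 0) : z = 0 := by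
  let _ := realK ι
  let _ : Algebra ℝ A := Algebra.compHom A (algebraMap ℝ K)
  have hT : IsScalarTower ℝ K A := IsScalarTower.of_algebraMap_eq (fun _ => rfl)
  have H := E.isFujiki
  refine H.nd hj (Pr_mem_aeval hz) ?_
  intro f hf
  have h1 := aeval_mem_Pr (ι := ι) (g := g) f hf
  have h2 : ∀ y ∈ Pr K g j, tr (z * y * g (Sum.inl none) ^ (2 * n - 2 * j)) = 0 := by
    intro y hy
    induction hy using span_induction with
    | mem y hy =>
      obtain ⟨t, ht, rfl⟩ := hy
      exact h t ht
    | zero => rw [mul_zero, zero_mul, map_zero]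
    | add x y _ _ hx hy => rw [mul_add, add_mul, map_add, hx, hy, add_zero]
    | smul c x _ hx => rw [mul_smul_comm, smul_mul_assoc, map_smul, hx, smul_zero]
  exact h2 _ h1

end Final

end Pool.Agent.Y103.Vb
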