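import Pool.Agent.Y103.Vb.Coef
import Pool.Agent.Y103.Vb.Lin
import Pool.Agent.Y103.Vb.Real

/-!
# A basis of eigenvectors of the second cohomology
-/

open CategoryTheory AlgebraicGeometry Submodule

universe u v

namespace Pool.Agent.Y103.Vb

open Pool.Agent.H914 Pool.Agent.H914.VarClass Pool.Agent.H914.VarClass.Obj
  Pool.Agent.H914.WeilCohomology Pool.Agent.H281R3.HT Pool.Agent.W552 Pool.Agent.Y103
  Pool.Agent.Y103.Fj

variable {k : Type u} [Field k] {𝒱 : VarClass k} {ops : CycleOps 𝒱}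

/-- The orthogonal complement of the classes of divisors in the second cohomology, with respect to
the form `b`. -/
def TT (W : WeilCohomology.{u, v} ops) (X : 𝒱.Obj)
    (b : W.H X →ₗ[W.K] W.H X →ₗ[W.K] W.K) : Submodule W.K (W.H X) where
  carrier := {x | x ∈ W.gr X 2 ∧ ∀ a ∈ algClasses W X 1, b x a = 0}
  zero_mem' := ⟨Submodule.zero_mem _, fun a _ => by rw [map_zero, LinearMap.zero_apply]⟩
  add_mem' := fun hx hy => ⟨Submodule.add_mem _ hx.1 hy.1, fun a ha => by
    rw [map_add, LinearMap.add_apply, hx.2 a ha, hy.2 a ha, add_zero]⟩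
  smul_mem' := fun c x hx => ⟨Submodule.smul_mem _ c hx.1, fun a ha => by
    rw [map_smul, LinearMap.smul_apply, hx.2 a ha, smul_zero]⟩

lemma transTwo_eq (W : WeilCohomology.{u, v} ops) (X : 𝒱.Obj)
    (b : W.H X →ₗ[W.K] W.H X →ₗ[W.K] W.K) : transTwo W X b = TT W X b := by
  ext x
  simp only [transTwo, orthIn, Submodule.mem_inf, Submodule.mem_iInf, LinearMap.mem_ker,
    LinearMap.flip_apply]
  rfl

/-- The assumptions. -/
structure Hyp (W : WeilCohomology.{u, v} ops) (X : 𝒱.Obj) (D : X.Cycles) (n : ℕ)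
    (b : W.H X →ₗ[W.K] W.H X →ₗ[W.K] W.K) (c s : ℚ) (f : X ⟶ X) (q : ℕ) : Prop where
  hn : X.dim = 2 * n
  hn2 : 2 ≤ n
  hD : X.IsCyc 1 D
  hHL : HardLefschetz W X D
  H : RawFujiki W X n b c
  hs : 0 < s
  hb : b (W.cl X D) (W.cl X D) = (s : W.K)
  hI : HodgeTypeFor W X D (InRing W.K (algClasses W X) 1 1)
  hq : q ≠ 0
  hRH : HasWeight (W.map f).toLinearMap (W.gr X 2) ((q : ℝ) ^ 2)
  hC : FrobeniusOnCycles W X f q
  hS : SquarefreeOn (W.map f).toLinearMap (TT W X b)
  hN : NeatUpTo (W.map f).toLinearMap (TT W X b) q n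

variable {W : WeilCohomology.{u, v} ops} {X : 𝒱.Obj} {D : X.Cycles} {n : ℕ}
  {b : W.H X →ₗ[W.K] W.H X →ₗ[W.K] W.K} {c s : ℚ} {f : X ⟶ X} {q : ℕ}

lemma pow_iter_eig {V : Type*} [AddCommGroup V] [Module W.K V] {F : Module.End W.K V} {v : V}
    {a : W.K} (h : F v = a • v) (m : ℕ) : (F ^ m) v = a ^ m • v := by
  induction m with
  | zero => simp
  | succ m ih => rw [pow_succ', Module.End.mul_apply, ih, map_smul, h, smul_smul, pow_succ]

namespace Hyp

variable (h : Hyp W X D n b c s f q)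

include h

lemma hn1 : 1 ≤ n := le_trans (by norm_num) h.hn2

lemma xi_mem : W.cl X D ∈ W.gr X 2 := cl_gr2 h.hD

lemma tr_top : W.tr X (W.cl X D ^ (2 * n)) = ((c * s ^ n : ℚ) : W.K) := by
  rw [h.H.rel _ h.xi_mem, h.hb]
  push_cast
  rfl

lemma tr_top_ne : W.tr X (W.cl X D ^ (2 * n)) ≠ 0 := by
  rw [h.tr_top]
  have h1 := h.hs
  have h2 := h.H.pos
  have h3 : (0 : ℚ) < c * s ^ n := by positivity
  exact_mod_cast h3.ne'

lemma qK : (q : W.K) ≠ 0 := by exact_mod_cast h.hq

/-- A multiple of the exponents of finitely many cycles. -/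
lemma frob {ι : Type*} (S : Finset ι) (j : ι → ℕ) (z : ι → X.Cycles)
    (hz : ∀ i ∈ S, X.IsCyc (j i) (z i)) : ∃ m ≥ 1, ∀ i ∈ S,
      ((W.map f).toLinearMap ^ m) (W.cl X (z i)) = (q : W.K) ^ (m * j i) • W.cl X (z i) := by
  classical
  induction S using Finset.induction_on with
  | empty => exact ⟨1, le_rfl, by simp⟩
  | insert a S ha ih =>
    obtain ⟨m, hm, h1⟩ := ih (fun i hi => hz i (Finset.mem_insert_of_mem hi))
    obtain ⟨m', hm', h2⟩ := h.hC (j a) (z a) (hz a (Finset.mem_insert_self a S))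
    rw [cl_pull_iter] at h2
    refine ⟨m * m', Nat.mul_pos hm hm', ?_⟩
    intro i hi
    rcases Finset.mem_insert.1 hi with rfl | hi
    · rw [mul_comm m m', pow_mul, pow_iter_eig h2 m, ← pow_mul]
      congr 2
      ring
    · rw [pow_mul, pow_iter_eig (h1 i hi) m', ← pow_mul]
      congr 2
      ring

/-- The Frobenius endomorphism and the trace. -/
lemma tr_frob {m : ℕ} (hξ : ((W.map f).toLinearMap ^ m) (W.cl X D) = (q : W.K) ^ m • W.cl X D)
    (a : W.H X) :
    W.tr X (W.map (iter f m) a) = (q : W.K) ^ (m * (2 * n)) * W.tr X a := by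
  refine tr_map_of_top (b := W.cl X D ^ (2 * n)) ?_ h.tr_top_ne ?_ a
  · have := alg_gr (W := W) (pow_alg (W := W) h.hD (2 * n))
    rwa [← h.hn] at this ⊢
  · rw [map_pow, map_iter, hξ, smul_pow, ← pow_mul]

/-- Products of eigenvectors. -/
lemma orth {x y : W.H X} (hx : x ∈ TT W X b) (hy : y ∈ TT W X b) {α β : W.K}
    (h1 : (W.map f).toLinearMap x = α • x) (h2 : (W.map f).toLinearMap y = β • y)
    (h0 : b x y ≠ 0) : α * β = (q : W.K) ^ 2 := by
  have hn1 := h.hn1
  have hx0 : x ≠ 0 := by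
    rintro rfl
    rw [map_zero, LinearMap.zero_apply] at h0
    exact h0 rfl
  have hy0 : y ≠ 0 := by
    rintro rfl
    rw [map_zero] at h0
    exact h0 rfl
  have hξa : W.cl X D ∈ algClasses W X 1 := ⟨D, h.hD, rfl⟩
  have hbx : b (W.cl X D) x = 0 := by rw [h.H.symm _ h.xi_mem _ hx.1]; exact hx.2 _ hξa
  have hby : b (W.cl X D) y = 0 := by rw [h.H.symm _ h.xi_mem _ hy.1]; exact hy.2 _ hξa
  obtain ⟨m, hm, hmξ⟩ := h.frob (Finset.univ : Finset Unit) (fun _ => 1) (fun _ => D)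
    (fun _ _ => h.hD)
  have hξ := hmξ () (Finset.mem_univ _)
  rw [mul_one] at hξ
  have ht := tr_two h.H hn1 h.hD h.hb hx.1 hy.1 hbx hby
  have hcp : ((cp n c s : ℚ) : W.K) ≠ 0 := by
    have := cp_pos hn1 h.H.pos h.hs
    exact_mod_cast this.ne'
  have ht0 : W.tr X (x * y * W.cl X D ^ (2 * n - 2)) ≠ 0 := by
    rw [ht]
    exact mul_ne_zero hcp h0
  have h3 := h.tr_frob hξ (x * y * W.cl X D ^ (2 * n - 2))
  rw [map_mul (W.map (iter f m)), map_mul (W.map (iter f m)), map_pow (W.map (iter f m)), map_iter,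
    map_iter, map_iter, hξ, pow_iter_eig h1, pow_iter_eig h2, smul_pow, smul_mul_smul_comm, smul_mul_smul_comm, map_smul, smul_eq_mul, ← pow_mul] at h3
  have h4 := mul_right_cancel₀ ht0 h3
  have hqm : (q : W.K) ^ (m * (2 * n - 2)) ≠ 0 := pow_ne_zero _ h.qK
  have h5 : (α * β) ^ m = (q : W.K) ^ (m * 2) := by
    have e : m * (2 * n) = m * 2 + m * (2 * n - 2) := by
      rw [← mul_add]
      congr 1
      omega
    rw [e, pow_add, ← mul_pow] at h4
    exact mul_right_cancel₀ hqm h4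
  obtain ⟨t, ht⟩ := h.hN {α, β} (by simpa using h.hn2) (by
    intro γ hγ
    simp only [Multiset.insert_eq_cons, Multiset.mem_cons, Multiset.mem_singleton] at hγ
    rcases hγ with rfl | rfl
    · exact ⟨x, hx, hx0, h1⟩
    · exact ⟨y, hy, hy0, h2⟩) m hm (by simpa using h5)
  have hcard := congrArg Multiset.card ht
  simp only [Multiset.insert_eq_cons, Multiset.card_cons, Multiset.card_singleton,
    Multiset.card_add, Multiset.card_map] at hcard
  obtain ⟨γ, rfl⟩ := Multiset.card_eq_one.1 (show t.card = 1 by omega)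
  have hp := congrArg Multiset.prod ht
  simp only [Multiset.insert_eq_cons, Multiset.prod_cons, Multiset.prod_singleton,
    Multiset.map_singleton, Multiset.prod_add] at hp
  have hγ0 : γ ≠ 0 := by
    rintro rfl
    rw [zero_mul] at hp
    rw [hp] at h5
    have : (0 : W.K) ^ m = 0 := zero_pow (by omega)
    rw [this] at h5
    exact pow_ne_zero _ h.qK h5.symm
  rw [hp, mul_div_cancel₀ _ hγ0]

/-- The absolute values of the eigenvalues. -/
lemma conj_eig (ι : W.K ≃+* ℂ) {v : W.H X} (hv : v ∈ W.gr X 2) (hv0 : v ≠ 0) {α : W.K}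
    (hα : (W.map f).toLinearMap v = α • v) : cj ι α = (q : W.K) ^ 2 / α ∧ α ≠ 0 := by
  obtain ⟨P, hP0, hP1, hP2⟩ := h.hRH
  have h1 := hP1 v hv
  have h2 : Polynomial.aeval (W.map f).toLinearMap (P.map (algebraMap ℚ W.K)) v =
      (P.map (algebraMap ℚ W.K)).eval α • v := by
    have := Module.End.aeval_apply_of_hasEigenvector (f := (W.map f).toLinearMap)
      (p := P.map (algebraMap ℚ W.K)) (x := v) (μ := α)
      ⟨Module.End.mem_eigenspace_iff.2 hα, hv0⟩
    exact this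
  rw [h2] at h1
  have h3 := (smul_eq_zero.1 h1).resolve_right hv0
  have h4 : Polynomial.aeval (ι α) P = 0 := by
    have h5 := congrArg (ι : W.K →+* ℂ) h3
    rw [map_zero, Polynomial.eval_map, Polynomial.hom_eval₂] at h5
    rw [Polynomial.aeval_def, RingHom.ext_rat (algebraMap ℚ ℂ)
      ((ι : W.K →+* ℂ).comp (algebraMap ℚ W.K))]
    exact h5
  have h5 := hP2 _ h4
  have hq0 : (0 : ℝ) < (q : ℝ) ^ 2 := by
    have : (0 : ℝ) < q := by exact_mod_cast Nat.pos_of_ne_zero h.hq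
    positivity
  have hα0 : α ≠ 0 := by
    rintro rfl
    rw [map_zero, norm_zero] at h5
    rw [← h5] at hq0
    norm_num at hq0
  refine ⟨?_, hα0⟩
  rw [eq_div_iff hα0]
  apply ι.injective
  rw [map_mul, cj_apply, ι.apply_symm_apply, map_pow, map_natCast, mul_comm, Complex.mul_conj,
    Complex.normSq_eq_norm_sq, h5]
  push_cast
  rfl

/-- No eigenvalue is real. -/
lemma im_ne (ι : W.K ≃+* ℂ) {v : W.H X} (hv : v ∈ TT W X b) (hv0 : v ≠ 0) {α : W.K}
    (hα : (W.map f).toLinearMap v = α • v) : (ι α).im ≠ 0 := by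
  intro him
  obtain ⟨h1, h2⟩ := h.conj_eig ι hv.1 hv0 hα
  have h3 : cj ι α = α := by
    rw [cj_apply, Complex.conj_eq_iff_im.2 him, ι.symm_apply_apply]
  rw [h3, eq_div_iff h2] at h1
  obtain ⟨t, ht⟩ := h.hN {α} (by simpa using h.hn1) (by
    intro γ hγ
    rw [Multiset.mem_singleton] at hγ
    subst hγ
    exact ⟨v, hv, hv0, hα⟩) 2 (by norm_num) (by
    rw [Multiset.prod_singleton, Multiset.card_singleton, mul_one, pow_two, h1])
  have := congrArg Multiset.card ht
  simp only [Multiset.card_singleton, Multiset.card_add, Multiset.card_map] at this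
  omega

end Hyp

end Pool.Agent.Y103.Vb
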