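import Pool.Agent.Y103.Vb.Theta2

/-!
# The standard conjectures for the subalgebra generated by the second cohomology
-/

open CategoryTheory AlgebraicGeometry Submodule

universe u v

namespace Pool.Agent.Y103.Vb

open Pool.Agent.H914 Pool.Agent.H914.VarClass Pool.Agent.H914.VarClass.Obj
  Pool.Agent.H914.WeilCohomology Pool.Agent.H281R3.HT Pool.Agent.W552 Pool.Agent.Y103
  Pool.Agent.Y103.Fj

/-- A multiset in a sum type. -/
lemma exists_split {α β : Type*} (s : Multiset (α ⊕ β)) :
    ∃ (s₁ : Multiset α) (s₂ : Multiset β), s = s₁.map Sum.inl + s₂.map Sum.inr := by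
  induction s using Multiset.induction_on with
  | empty => exact ⟨0, 0, rfl⟩
  | cons a s ih =>
    obtain ⟨s₁, s₂, rfl⟩ := ih
    rcases a with a | a
    · exact ⟨a ::ₘ s₁, s₂, by rw [Multiset.map_cons, Multiset.cons_add]⟩
    · exact ⟨s₁, a ::ₘ s₂, by rw [Multiset.map_cons, Multiset.add_cons]⟩

lemma exists_lift {α β : Type*} (g : α → β) (s : Multiset β) (h : ∀ b ∈ s, ∃ a, g a = b) :
    ∃ t : Multiset α, t.map g = s := by
  induction s using Multiset.induction_on with
  | empty => exact ⟨0, rfl⟩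
  | cons a s ih =>
    obtain ⟨t, ht⟩ := ih (fun b hb => h b (Multiset.mem_cons_of_mem hb))
    obtain ⟨a', ha'⟩ := h a (Multiset.mem_cons_self a s)
    exact ⟨a' ::ₘ t, by rw [Multiset.map_cons, ha', ht]⟩

variable {k : Type u} [Field k] {𝒱 : VarClass k} {ops : CycleOps 𝒱}
  {W : WeilCohomology.{u, v} ops} {X : 𝒱.Obj} {D : X.Cycles} {n : ℕ}
  {b : W.H X →ₗ[W.K] W.H X →ₗ[W.K] W.K} {c s : ℚ} {f : X ⟶ X} {q : ℕ}
  {ι : W.K ≃+* ℂ} {N r : ℕ} {e : Fin N → W.H X} {w : Fin N → ℚ} {x : Fin r × Bool → W.H X}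
  {lam : Fin r × Bool → W.K}

lemma gr2_center {a : W.H X} (ha : a ∈ W.gr X 2) : a ∈ Cen W X :=
  Subalgebra.mem_center_iff.2 (fun y => (gr2_comm ha y).symm)

section Data

variable (h : Hyp W X D n b c s f q) (B : DivBasis W X D b N e w)
  (E : EigBasis ι b f q r x lam)

/-- The basis as a family of central elements. -/
noncomputable def gC (h : Hyp W X D n b c s f q) (B : DivBasis W X D b N e w)
    (E : EigBasis ι b f q r x lam) (a : Idx N r) : Cen W X :=
  ⟨gg D e x a, gr2_center (gg_mem h B E a)⟩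

/-- The coefficients of the form. -/
noncomputable def wR (s : ℚ) (w : Fin N → ℚ) : Option (Fin N) → ℝ
  | none => (s : ℝ)
  | some l => (w l : ℝ)

lemma symm_rat (ι : W.K ≃+* ℂ) (a : ℚ) : ι.symm (((a : ℝ)) : ℂ) = (a : W.K) := by
  rw [Complex.ofReal_ratCast, map_ratCast]

/-- The form on the center. -/
noncomputable def bC (b : W.H X →ₗ[W.K] W.H X →ₗ[W.K] W.K) :
    Cen W X →ₗ[W.K] Cen W X →ₗ[W.K] W.K :=
  b.compl₁₂ (Cen W X).val.toLinearMap (Cen W X).val.toLinearMap

lemma bC_apply (x y : Cen W X) : bC b x y = b (x : W.H X) (y : W.H X) := rfl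

lemma range_gC_gr {y : Cen W X} (hy : y ∈ span W.K (Set.range (gC h B E))) :
    (y : W.H X) ∈ W.gr X 2 := by
  induction hy using span_induction with
  | mem y hy =>
    obtain ⟨a, rfl⟩ := hy
    exact gg_mem h B E a
  | zero => exact zero_mem _
  | add x y _ _ hx hy => exact add_mem hx hy
  | smul a x _ hx => exact smul_mem _ _ hx

/-- The data of the abstract theorem. -/
theorem eigData : EigData ι n (trZ W X) (bC b) (gC h B E) (wR s w) (c : ℝ) where
  wpos := by
    have := h.hs
    change (0 : ℝ) < (s : ℝ)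
    exact_mod_cast this
  wneg := fun l => by
    have := B.neg l
    change (w l : ℝ) < 0
    exact_mod_cast this
  cpos := by
    have := h.H.pos
    exact_mod_cast this
  dd := by
    rintro (_ | l) (_ | l')
    · rw [if_pos rfl]
      change b (W.cl X D) (W.cl X D) = ι.symm (((s : ℝ)) : ℂ)
      rw [symm_rat, h.hb]
    · rw [if_neg (by simp)]
      exact B.xi l'
    · rw [if_neg (by simp)]
      change b (e l) (W.cl X D) = 0
      rw [h.H.symm _ (alg_gr (B.alg l)) _ h.xi_mem, B.xi]
    · change b (e l) (e l') = _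
      rw [B.orth]
      simp only [Option.some.injEq]
      split_ifs
      · exact (symm_rat ι (w l)).symm
      · rfl
  dx := by
    rintro (_ | l) p
    · exact xi_x h E p
    · change b (e l) (x p) = 0
      rw [h.H.symm _ (alg_gr (B.alg l)) _ (E.mem p).1]
      exact (E.mem p).2 _ (B.alg l)
  xd := by
    rintro (_ | l) p
    · exact (E.mem p).2 _ ⟨D, h.hD, rfl⟩
    · exact (E.mem p).2 _ (B.alg l)
  xx := E.form
  rel := by
    intro y hy
    have h1 := h.H.rel _ (range_gC_gr h B E hy)
    rw [symm_rat]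
    exact h1

/-- Monomials with nonzero pairing are balanced. -/
theorem balanced {j : ℕ} (hj : j ≤ n) {z : X.Cycles} (hz : X.IsCyc j z)
    {t : Multiset (Idx N r)} (ht : t.card = j)
    (h0 : W.tr X (W.cl X z * (mp (gC h B E) t : Cen W X) * W.cl X D ^ (2 * n - 2 * j)) ≠ 0) :
    ∃ (s₁ : Multiset (Option (Fin N))) (t' : Multiset (Fin r × Bool)),
      t = s₁.map Sum.inl + (t' + t'.map sw).map Sum.inr := by
  classical
  obtain ⟨s₁, s₂, rfl⟩ := exists_split t
  choose ez hez hezc using B.alg
  -- the exponent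
  obtain ⟨m, hm, hmz⟩ := h.frob (Finset.univ : Finset (Option (Option (Fin N))))
    (fun o => match o with | none => j | some _ => 1)
    (fun o => match o with | none => z | some none => D | some (some l) => ez l) (by
      rintro (_ | _ | l) _
      · exact hz
      · exact h.hD
      · exact hez l)
  have hFz : W.map (iter f m) (W.cl X z) = (q : W.K) ^ (m * j) • W.cl X z := by
    rw [map_iter]; exact hmz none (Finset.mem_univ _)
  have hFξ' : ((W.map f).toLinearMap ^ m) (W.cl X D) = (q : W.K) ^ m • W.cl X D := by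
    have := hmz (some none) (Finset.mem_univ _)
    rwa [mul_one] at this
  have hFξ : W.map (iter f m) (W.cl X D) = (q : W.K) ^ m • W.cl X D := by
    rw [map_iter]; exact hFξ'
  have hFe : ∀ l, W.map (iter f m) (e l) = (q : W.K) ^ m • e l := by
    intro l
    rw [map_iter, ← hezc]
    have := hmz (some (some l)) (Finset.mem_univ _)
    rwa [mul_one] at this
  set μ : Idx N r → W.K := fun a => match a with
    | Sum.inl _ => (q : W.K) ^ m
    | Sum.inr p => lam p ^ m with hμ
  have hFg : ∀ a, W.map (iter f m) (gg D e x a) = μ a • gg D e x a := by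
    rintro ((_ | l) | p)
    · exact hFξ
    · exact hFe l
    · rw [map_iter]
      exact pow_iter_eig (E.eig p) m
  have hFm : ∀ t : Multiset (Idx N r), W.map (iter f m) (mp (gC h B E) t : Cen W X) =
      (t.map μ).prod • ((mp (gC h B E) t : Cen W X) : W.H X) := by
    intro t
    induction t using Multiset.induction_on with
    | empty =>
      rw [mp_zero, Multiset.map_zero, Multiset.prod_zero, one_smul]
      exact map_one (W.map (iter f m))
    | cons a t ih =>
      rw [mp_cons, Multiset.map_cons, Multiset.prod_cons]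
      change W.map (iter f m) (gg D e x a * ((mp (gC h B E) t : Cen W X) : W.H X)) =
        _ • (gg D e x a * ((mp (gC h B E) t : Cen W X) : W.H X))
      rw [map_mul, hFg, ih, smul_mul_smul_comm]
  have h1 := h.tr_frob hFξ' (W.cl X z * (mp (gC h B E)
    (s₁.map Sum.inl + s₂.map Sum.inr) : Cen W X) * W.cl X D ^ (2 * n - 2 * j))
  rw [map_mul (W.map (iter f m)), map_mul (W.map (iter f m)), map_pow (W.map (iter f m)), hFz, hFm,
    hFξ, smul_pow, smul_mul_smul_comm, smul_mul_smul_comm, map_smul, smul_eq_mul] at h1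
  have h2 := mul_right_cancel₀ h0 h1
  rw [Multiset.map_add, Multiset.prod_add, Multiset.map_map, Multiset.map_map] at h2
  have h3 : (s₁.map (μ ∘ Sum.inl)).prod = ((q : W.K) ^ m) ^ s₁.card := by
    have : (μ ∘ Sum.inl : Option (Fin N) → W.K) = fun _ => (q : W.K) ^ m := rfl
    rw [this, Multiset.map_const', Multiset.prod_replicate]
  have h4 : (s₂.map (μ ∘ Sum.inr)).prod = (s₂.map lam).prod ^ m := by
    have : (μ ∘ Sum.inr : Fin r × Bool → W.K) = fun p => lam p ^ m := rfl
    rw [this, Multiset.prod_map_pow]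
  rw [h3, h4] at h2
  rw [Multiset.card_add, Multiset.card_map, Multiset.card_map] at ht
  have hqK := h.qK
  have h5 : (s₂.map lam).prod ^ m = (q : W.K) ^ (m * (s₂.map lam).card) := by
    rw [Multiset.card_map]
    have hA : (q : W.K) ^ (m * j + m * s₁.card + m * (2 * n - 2 * j)) ≠ 0 := pow_ne_zero _ hqK
    apply mul_left_cancel₀ hA
    have e1 : m * j + m * s₁.card + m * (2 * n - 2 * j) + m * s₂.card = m * (2 * n) := by
      rw [← mul_add, ← mul_add, ← mul_add]
      congr 1
      omega
    rw [← pow_add, e1, ← h2, pow_add, pow_add, pow_mul (q : W.K) m s₁.card,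
      pow_mul (q : W.K) m (2 * n - 2 * j)]
    ring
  obtain ⟨t, ht2⟩ := h.hN (s₂.map lam) (by rw [Multiset.card_map]; omega) (by
    intro α hα
    obtain ⟨p, -, rfl⟩ := Multiset.mem_map.1 hα
    exact ⟨x p, E.mem p, E.ne0 p, E.eig p⟩) m hm h5
  obtain ⟨t', rfl⟩ := exists_lift lam t (by
    intro α hα
    have h6 : α ∈ s₂.map lam := by
      rw [ht2]
      exact Multiset.mem_add.2 (Or.inl hα)
    obtain ⟨p, -, hp⟩ := Multiset.mem_map.1 h6
    exact ⟨p, hp⟩)
  refine ⟨s₁, t', ?_⟩
  congr 2
  apply Multiset.map_injective E.inj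
  rw [ht2, Multiset.map_add, Multiset.map_map, Multiset.map_map]
  congr 1
  apply Multiset.map_congr rfl
  intro p _
  exact E.swap p

/-- Balanced monomials are real combinations of algebraic classes. -/
lemma balanced_mem (hB : LefschetzB W X D) (s₁ : Multiset (Option (Fin N)))
    (t' : Multiset (Fin r × Bool)) :
    ((mp (gC h B E) (s₁.map Sum.inl + (t' + t'.map sw).map Sum.inr) : Cen W X) : W.H X) ∈
      algR (realField ι) X := by
  have hcoe : ∀ y z : Cen W X, ((y * z : Cen W X) : W.H X) = (y : W.H X) * z := fun _ _ => rfl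
  have h1 : ∀ s₁ : Multiset (Option (Fin N)),
      ((mp (gC h B E) (s₁.map Sum.inl) : Cen W X) : W.H X) ∈ algR (realField ι) X := by
    intro s₁
    induction s₁ using Multiset.induction_on with
    | empty => rw [Multiset.map_zero, mp_zero]; exact algR_one
    | cons a s ih =>
      rw [Multiset.map_cons, mp_cons, hcoe]
      apply algR_mul ?_ ih
      rcases a with _ | l
      · exact subset_span ⟨1, D, h.hD, rfl⟩
      · exact subset_span ⟨1, B.alg l⟩
  have h2 : ∀ t' : Multiset (Fin r × Bool),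
      ((mp (gC h B E) ((t' + t'.map sw).map Sum.inr) : Cen W X) : W.H X) ∈
        algR (realField ι) X := by
    intro t'
    induction t' using Multiset.induction_on with
    | empty => rw [Multiset.map_zero, add_zero, Multiset.map_zero, mp_zero]; exact algR_one
    | cons a t' ih =>
      have e1 : ((a ::ₘ t') + (a ::ₘ t').map sw).map (Sum.inr : _ → Idx N r) =
          Sum.inr a ::ₘ Sum.inr (sw a) ::ₘ (t' + t'.map sw).map Sum.inr := by
        rw [Multiset.map_cons, Multiset.cons_add, Multiset.add_cons, Multiset.map_cons,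
          Multiset.map_cons]
      rw [e1, mp_cons, mp_cons, ← mul_assoc, hcoe]
      apply algR_mul ?_ ih
      exact pair_mem h B E hB a
  rw [mp_add, hcoe]
  exact algR_mul (h1 _) (h2 _)

lemma swp_balanced (s₁ : Multiset (Option (Fin N))) (t' : Multiset (Fin r × Bool)) :
    (s₁.map Sum.inl + (t' + t'.map sw).map Sum.inr : Multiset (Idx N r)).map swp =
      s₁.map Sum.inl + (t' + t'.map sw).map Sum.inr := by
  rw [Multiset.map_add, Multiset.map_map, Multiset.map_map]
  congr 1
  have : (swp ∘ Sum.inr : Fin r × Bool → Idx N r) = Sum.inr ∘ sw := rfl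
  rw [this, ← Multiset.map_map Sum.inr sw, Multiset.map_add, Multiset.map_map]
  have h2 : (sw ∘ sw : Fin r × Bool → Fin r × Bool) = id := funext sw_sw
  rw [h2, Multiset.map_id, add_comm]

lemma swp_swp (t : Multiset (Idx N r)) : (t.map swp).map swp = t := by
  rw [Multiset.map_map]
  have h2 : (swp ∘ swp : Idx N r → Idx N r) = id := by
    funext a
    rcases a with l | ⟨i, _ | _⟩ <;> rfl
  rw [h2, Multiset.map_id]

/-- The values on monomials are compatible with the conjugation. -/
theorem conj_val (hB : LefschetzB W X D) {j : ℕ} (hj : j ≤ n) {z : X.Cycles}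
    (hz : X.IsCyc j z) {t : Multiset (Idx N r)} (ht : t.card = j) :
    cj ι (W.tr X (W.cl X z * (mp (gC h B E) t : Cen W X) * W.cl X D ^ (2 * n - 2 * j))) =
      W.tr X (W.cl X z * (mp (gC h B E) (t.map swp) : Cen W X) *
        W.cl X D ^ (2 * n - 2 * j)) := by
  have hz' : W.cl X z ∈ algR (realField ι) X := subset_span ⟨j, z, hz, rfl⟩
  have hξ' : ∀ a : ℕ, W.cl X D ^ a ∈ algR (realField ι) X :=
    fun a => subset_span ⟨a, pow_alg h.hD a⟩
  have key : ∀ t : Multiset (Idx N r), t.card = j →
      W.tr X (W.cl X z * (mp (gC h B E) t : Cen W X) * W.cl X D ^ (2 * n - 2 * j)) ≠ 0 →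
        cj ι (W.tr X (W.cl X z * (mp (gC h B E) t : Cen W X) * W.cl X D ^ (2 * n - 2 * j))) =
          W.tr X (W.cl X z * (mp (gC h B E) t : Cen W X) * W.cl X D ^ (2 * n - 2 * j)) ∧
            t.map swp = t := by
    intro t ht h0
    obtain ⟨s₁, t', rfl⟩ := balanced h B E hj hz ht h0
    refine ⟨?_, swp_balanced s₁ t'⟩
    rw [← mem_realField]
    exact algR_tr (algR_mul (algR_mul hz' (balanced_mem h B E hB s₁ t')) (hξ' _))
  by_cases h1 : W.tr X (W.cl X z * (mp (gC h B E) t : Cen W X) *
      W.cl X D ^ (2 * n - 2 * j)) = 0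
  · by_cases h2 : W.tr X (W.cl X z * (mp (gC h B E) (t.map swp) : Cen W X) *
        W.cl X D ^ (2 * n - 2 * j)) = 0
    · rw [h1, h2, map_zero]
    · obtain ⟨-, h3⟩ := key _ (by rw [Multiset.card_map]; exact ht) h2
      rw [swp_swp] at h3
      rw [← h3] at h2
      exact absurd h1 h2
  · obtain ⟨h2, h3⟩ := key t ht h1
    rw [h3]
    exact h2

/-- Numerically trivial cycles. -/
lemma num_zero {i : ℕ} {z : X.Cycles} (hz : X.IsCyc i z) (hi : i ≤ X.dim)
    (hnum : ∀ w, X.IsCyc (X.dim - i) w → X.V.degCycle (ops.mul z w) = 0) {y : W.H X}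
    (hy : y ∈ algR (realField ι) X) : W.tr X (W.cl X z * y) = 0 := by
  induction hy using span_induction with
  | mem y hy =>
    obtain ⟨l, z', hz', rfl⟩ := hy
    by_cases hl : l = X.dim - i
    · subst hl
      rw [deg_eq hz hz' (by omega), hnum z' hz', Rat.cast_zero]
    · exact W.tr_eq_zero (W.mul_mem (W.cl_mem hz) (W.cl_mem hz')) (by omega)
  | zero => rw [mul_zero, map_zero]
  | add a b _ _ ha hb => rw [mul_add, map_add, ha, hb, add_zero]
  | smul a y _ hy =>
    have : W.cl X z * (a • y) = (a : W.K) • (W.cl X z * y) := mul_smul_comm (a : W.K) _ _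
    rw [this, map_smul, hy, smul_zero]

lemma gC_mul_mem {j : ℕ} (p : Idx N r) {y : Cen W X} (hy : y ∈ Pr W.K (gC h B E) j) :
    gC h B E p * y ∈ Pr W.K (gC h B E) (1 + j) := by
  induction hy using span_induction with
  | mem y hy =>
    obtain ⟨t, ht, rfl⟩ := hy
    exact subset_span ⟨p ::ₘ t, by rw [Multiset.card_cons, ht, add_comm],
      (mp_cons p t).symm⟩
  | zero => rw [mul_zero]; exact zero_mem _
  | add x y _ _ hx hy => rw [mul_add]; exact add_mem hx hy
  | smul c x _ hx => rw [mul_smul_comm]; exact smul_mem _ _ hx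

/-- Elements of the algebra generated by the second cohomology. -/
lemma lift_gen {j : ℕ} {y : W.H X}
    (hy : y ∈ genRing W.K (fun _ => (W.gr X 2 : Set (W.H X))) 1 j) :
    ∃ a ∈ Pr W.K (gC h B E) j, ((a : Cen W X) : W.H X) = y := by
  induction hy using span_induction with
  | mem y hy =>
    induction hy with
    | one => exact ⟨1, subset_span ⟨0, rfl, mp_zero.symm⟩, rfl⟩
    | @mul i j a b' h1 h2 ha _ ih =>
      obtain rfl : i = 1 := le_antisymm h2 h1
      obtain ⟨y, hy, rfl⟩ := ih
      have ha' : a ∈ W.gr X 2 := ha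
      have key : ∀ a ∈ span W.K (Set.range (gg D e x)), ∃ a' ∈ Pr W.K (gC h B E) (1 + j),
          ((a' : Cen W X) : W.H X) = a * y := by
        intro a ha
        induction ha using span_induction with
        | mem a ha =>
          obtain ⟨p, rfl⟩ := ha
          exact ⟨gC h B E p * y, gC_mul_mem h B E p hy, rfl⟩
        | zero => exact ⟨0, zero_mem _, by rw [zero_mul]; rfl⟩
        | add a b _ _ ha hb =>
          obtain ⟨a', ha', h1⟩ := ha
          obtain ⟨b', hb', h2⟩ := hb
          exact ⟨a' + b', add_mem ha' hb', by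
            rw [add_mul, ← h1, ← h2]; rfl⟩
        | smul c a _ ha =>
          obtain ⟨a', ha', h1⟩ := ha
          exact ⟨c • a', smul_mem _ _ ha', by rw [smul_mul_assoc, ← h1]; rfl⟩
      exact key a (span_gg h B E ha')
  | zero => exact ⟨0, zero_mem _, rfl⟩
  | add a b _ _ ha hb =>
    obtain ⟨a', ha', rfl⟩ := ha
    obtain ⟨b', hb', rfl⟩ := hb
    exact ⟨a' + b', add_mem ha' hb', rfl⟩
  | smul c a _ ha =>
    obtain ⟨a', ha', rfl⟩ := ha
    exact ⟨c • a', smul_mem _ _ ha', rfl⟩

/-- The degree. -/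
lemma gen_gr {j : ℕ} {y : W.H X}
    (hy : y ∈ genRing W.K (fun _ => (W.gr X 2 : Set (W.H X))) 1 j) : y ∈ W.gr X (2 * j) := by
  induction hy using span_induction with
  | mem y hy =>
    induction hy with
    | one => exact W.one_mem X
    | @mul i j a b' h1 h2 ha _ ih =>
      obtain rfl : i = 1 := le_antisymm h2 h1
      have := W.mul_mem (show a ∈ W.gr X 2 from ha) ih
      rwa [show 2 + 2 * j = 2 * (1 + j) by ring] at this
  | zero => exact zero_mem _
  | add a b _ _ ha hb => exact add_mem ha hb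
  | smul c a _ ha => exact smul_mem _ _ ha

end Data

/-- **The standard conjectures of Hodge type and `D` for the subalgebra generated by the second
cohomology.** -/
theorem hodge_verbitsky (ι : W.K ≃+* ℂ) (h : Hyp W X D n b c s f q) (hB : LefschetzB W X D) :
    StdFor W X D (InVerbitsky W X n) := by
  obtain ⟨N, e, w, B⟩ := h.exists_divBasis
  obtain ⟨r, x, lam, E⟩ := exists_eigBasis B h ι
  have hn := h.hn
  have hD := h.hD
  have H := eigData h B E
  have hdeg : ∀ {i j : ℕ} {z : X.Cycles}, X.IsCyc i z →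
      W.cl X z ∈ genRing W.K (fun _ => (W.gr X 2 : Set (W.H X))) 1 j → W.cl X z ≠ 0 →
        i = j := by
    intro i j z hz h1 h0
    by_contra hij
    apply h0
    have h3 := proj_same (W.isInternal X) (W.cl_mem hz)
    have h4 := proj_ne (W.isInternal X) (j := 2 * i) (gen_gr h1) (by omega)
    rw [← h3, h4]
  constructor
  · rintro j hj z hz ⟨j', -, hj'⟩ hp h0
    obtain rfl := hdeg hz hj' h0
    rw [cl_divPow, mulLeft_pow_apply'] at hp
    have hjn : j ≤ n := by omega
    obtain ⟨y, hy, hyz⟩ := lift_gen h B E hj'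
    obtain ⟨a, ha, h1⟩ := pos_abs (ι := ι) H hjn hy (by
      intro t ht
      have := conj_val h B E hB hjn hz ht
      rw [← hyz] at this
      exact this) (by
      intro t ht
      rw [trZ_apply]
      change W.tr X ((y : W.H X) * (W.cl X D * ((mp (gC h B E) t : Cen W X) : W.H X)) *
        W.cl X D ^ (2 * n - 2 * j)) = 0
      have h3 : W.cl X D * ((mp (gC h B E) t : Cen W X) : W.H X) *
          W.cl X D ^ (2 * n - 2 * j) = W.cl X D ^ (X.dim - 2 * j + 1) *
            ((mp (gC h B E) t : Cen W X) : W.H X) := by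
        rw [mul_assoc, ← alg_even_comm (pow_alg (W := W) hD (2 * n - 2 * j)), ← mul_assoc,
          ← pow_succ', hn]
      rw [hyz, mul_assoc, h3, ← mul_assoc, ← alg_even_comm (pow_alg (W := W) hD
        (X.dim - 2 * j + 1)), hp, zero_mul, map_zero]) (by
      intro h2
      apply h0
      rw [← hyz, h2]
      rfl)
    have h4 := deg_eq (W := W) hz (divPow_mem (ops := ops) hD (X.dim - 2 * j) hz) (by omega)
    rw [cl_divPow, mulLeft_pow_apply'] at h4
    have h5 : W.cl X z * W.cl X z * W.cl X D ^ (X.dim - 2 * j) =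
        W.cl X z * (W.cl X D ^ (X.dim - 2 * j) * W.cl X z) := by
      rw [mul_assoc, W.even_comm (W.cl_mem hz) (W.cl X D ^ (X.dim - 2 * j))]
    rw [trZ_apply] at h1
    change (-1) ^ j * W.tr X ((y : W.H X) * (y : W.H X) * W.cl X D ^ (2 * n - 2 * j)) =
      _ at h1
    rw [hyz, ← hn, h5, h4] at h1
    have h7 : ι (((-1 : ℚ) ^ j * X.V.degCycle (ops.mul z (divPow ops D (X.dim - 2 * j) z)) :
        ℚ) : W.K) = (a : ℂ) := by
      push_cast
      rw [h1, ι.apply_symm_apply]
    rw [map_ratCast] at h7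
    have h8 : (((-1 : ℚ) ^ j * X.V.degCycle (ops.mul z (divPow ops D (X.dim - 2 * j) z)) :
        ℚ) : ℝ) = a := by exact_mod_cast h7
    rw [← h8] at ha
    exact_mod_cast ha
  · rintro j hj z hz ⟨j', hj2, hj'⟩ hnum
    by_contra h0
    obtain rfl := hdeg hz hj' h0
    obtain ⟨y, hy, hyz⟩ := lift_gen h B E hj'
    apply h0
    have h1 : y = 0 := by
      apply nd_abs (ι := ι) H hj2 hy
      intro t ht
      rw [trZ_apply]
      change W.tr X ((y : W.H X) * ((mp (gC h B E) t : Cen W X) : W.H X) *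
        W.cl X D ^ (2 * n - 2 * j)) = 0
      rw [hyz]
      by_contra h2
      obtain ⟨s₁, t', rfl⟩ := balanced h B E hj2 hz ht h2
      apply h2
      rw [mul_assoc]
      apply num_zero (ι := ι) hz hj hnum
      exact algR_mul (balanced_mem h B E hB s₁ t')
        (subset_span ⟨_, pow_alg hD (2 * n - 2 * j)⟩)
    rw [← hyz, h1]
    rfl

end Pool.Agent.Y103.Vb
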