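import Pool.Agent.Y103.Vb.Basis
import Pool.Agent.H914R2.PGood
import Pool.Agent.H914R2.KLef
import Pool.Agent.H914R2.GFrob

/-!
# Algebraic classes in the symmetric square of the transcendental part
-/

open CategoryTheory AlgebraicGeometry Submodule

universe u v

namespace Pool.Agent.Y103.Vb

open Pool.Agent.H914 Pool.Agent.H914.VarClass Pool.Agent.H914.VarClass.Obj
  Pool.Agent.H914.WeilCohomology Pool.Agent.H281R3.HT Pool.Agent.W552 Pool.Agent.Y103
  Pool.Agent.Y103.Fj

/-- The real subfield of the coefficient field. -/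
noncomputable def realField {K : Type*} [Field K] (ι : K ≃+* ℂ) : RealField K where
  R := (cj ι).eqLocusField (RingHom.id K)
  ρ := {
    toFun := fun s => (ι (s : K)).re
    map_one' := by simp
    map_zero' := by simp
    map_add' := by intro x y; simp
    map_mul' := by
      intro x y
      have h1 : (ι (x : K)).im = 0 := by
        have h2 : cj ι (x : K) = x := x.2
        rw [cj_apply] at h2
        apply Complex.conj_eq_iff_im.1
        rw [← ι.apply_symm_apply (starRingEnd ℂ (ι (x : K))), h2]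
      simp [Complex.mul_re, h1] }
  i := im ι
  i_sq := im_mul ι

lemma mem_realField {K : Type*} [Field K] {ι : K ≃+* ℂ} {s : K} :
    s ∈ (realField ι).R ↔ cj ι s = s := Iff.rfl

variable {k : Type u} [Field k] {𝒱 : VarClass k} {ops : CycleOps 𝒱}
  {W : WeilCohomology.{u, v} ops} {X : 𝒱.Obj} {D : X.Cycles} {n : ℕ}
  {b : W.H X →ₗ[W.K] W.H X →ₗ[W.K] W.K} {c s : ℚ} {f : X ⟶ X} {q : ℕ}
  {ι : W.K ≃+* ℂ} {N r : ℕ} {e : Fin N → W.H X} {w : Fin N → ℚ} {x : Fin r × Bool → W.H X}
  {lam : Fin r × Bool → W.K}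

/-- The basis of the second cohomology. -/
noncomputable def gg (D : X.Cycles) (e : Fin N → W.H X) (x : Fin r × Bool → W.H X) :
    Idx N r → W.H X
  | Sum.inl none => W.cl X D
  | Sum.inl (some l) => e l
  | Sum.inr p => x p

/-- The dual basis. -/
noncomputable def gd (D : X.Cycles) (n : ℕ) (c s : ℚ) (e : Fin N → W.H X) (w : Fin N → ℚ)
    (x : Fin r × Bool → W.H X) : Idx N r → W.H X
  | Sum.inl none => ((c * s ^ n : ℚ) : W.K)⁻¹ • W.cl X D
  | Sum.inl (some l) => ((cp n c s * w l : ℚ) : W.K)⁻¹ • e l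
  | Sum.inr p => (((cp n c s : ℚ) : W.K) * (-1 / 2))⁻¹ • x (p.1, !p.2)

section Data

variable (h : Hyp W X D n b c s f q) (B : DivBasis W X D b N e w)
  (E : EigBasis ι b f q r x lam)

include h B E

omit B in
lemma xi_x (p : Fin r × Bool) : b (W.cl X D) (x p) = 0 := by
  have hξa : W.cl X D ∈ algClasses W X 1 := ⟨D, h.hD, rfl⟩
  rw [h.H.symm _ h.xi_mem _ (E.mem p).1]
  exact (E.mem p).2 _ hξa

lemma gg_mem (a : Idx N r) : gg D e x a ∈ W.gr X 2 := by
  rcases a with (_ | l) | p
  · exact h.xi_mem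
  · exact alg_gr (B.alg l)
  · exact (E.mem p).1

/-- The second cohomology is spanned by the basis. -/
lemma span_gg {y : W.H X} (hy : y ∈ W.gr X 2) : y ∈ span W.K (Set.range (gg D e x)) := by
  obtain ⟨t, ht, hyt⟩ := decomp B h hy
  have h1 : y = (y - t) + t := by abel
  rw [h1]
  apply add_mem
  · refine span_mono ?_ hyt
    intro a ha
    rcases ha with rfl | ⟨l, rfl⟩
    · exact ⟨Sum.inl none, rfl⟩
    · exact ⟨Sum.inl (some l), rfl⟩
  · refine span_mono ?_ (E.span t ht)
    rintro _ ⟨p, rfl⟩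
    exact ⟨Sum.inr p, rfl⟩

/-- The two bases are dual to each other. -/
lemma dual {y : W.H X} (hy : y ∈ W.gr X 2) :
    ∑ a, W.tr X (gg D e x a * y * W.cl X D ^ (2 * n - 2)) • gd D n c s e w x a = y := by
  have hn1 := h.hn1
  have hcp := cp_pos hn1 h.H.pos h.hs
  have hcpK : ((cp n c s : ℚ) : W.K) ≠ 0 := by exact_mod_cast hcp.ne'
  have hbx := xi_x h E
  have hex : ∀ l p, b (e l) (x p) = 0 := by
    intro l p
    rw [h.H.symm _ (alg_gr (B.alg l)) _ (E.mem p).1]
    exact (E.mem p).2 _ (B.alg l)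
  have hpow : 2 * n - 2 + 1 = 2 * n - 1 := by omega
  have txi : ∀ y ∈ W.gr X 2, b (W.cl X D) y = 0 →
      W.tr X (W.cl X D * y * W.cl X D ^ (2 * n - 2)) = 0 := by
    intro y hy h0
    rw [← gr2_comm hy, mul_assoc, ← pow_succ', hpow, tr_xi h.H hn1 h.hD h.hb hy, h0, mul_zero]
  have txi' : ∀ y ∈ W.gr X 2, b (W.cl X D) y = 0 →
      W.tr X (y * W.cl X D * W.cl X D ^ (2 * n - 2)) = 0 := by
    intro y hy h0
    rw [mul_assoc, ← pow_succ', hpow, tr_xi h.H hn1 h.hD h.hb hy, h0, mul_zero]
  have hy' := span_gg h B E hy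
  clear hy
  induction hy' using span_induction with
  | mem y hy =>
    obtain ⟨t, rfl⟩ := hy
    rcases t with (_ | l) | p
    · rw [Finset.sum_eq_single (Sum.inl none)]
      · have h1 : gg D e x (Sum.inl none) * gg D e x (Sum.inl none) * W.cl X D ^ (2 * n - 2) =
            W.cl X D ^ (2 * n) := by
          change W.cl X D * W.cl X D * W.cl X D ^ (2 * n - 2) = _
          rw [← pow_two, ← pow_add]
          congr 1
          omega
        rw [h1, h.tr_top]
        change ((c * s ^ n : ℚ) : W.K) • (((c * s ^ n : ℚ) : W.K)⁻¹ • W.cl X D) = W.cl X D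
        have h2 := h.tr_top_ne
        rw [h.tr_top] at h2
        rw [smul_smul, mul_inv_cancel₀ h2, one_smul]
      · rintro ((_ | l) | p) _ ht
        · exact absurd rfl ht
        · change W.tr X (e l * W.cl X D * _) • _ = 0
          rw [txi' _ (alg_gr (B.alg l)) (B.xi l), zero_smul]
        · change W.tr X (x p * W.cl X D * _) • _ = 0
          rw [txi' _ (E.mem p).1 (hbx p), zero_smul]
      · intro h; exact absurd (Finset.mem_univ _) h
    · rw [Finset.sum_eq_single (Sum.inl (some l))]
      · change W.tr X (e l * e l * _) • ((cp n c s * w l : ℚ) : W.K)⁻¹ • e l = e l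
        rw [tr_two h.H hn1 h.hD h.hb (alg_gr (B.alg l)) (alg_gr (B.alg l)) (B.xi l) (B.xi l),
          B.orth, if_pos rfl, Rat.cast_mul, smul_smul, mul_inv_cancel₀, one_smul]
        have : (w l : W.K) ≠ 0 := by exact_mod_cast (B.neg l).ne
        exact mul_ne_zero hcpK this
      · rintro ((_ | l') | p) _ ht
        · change W.tr X (W.cl X D * e l * _) • _ = 0
          rw [txi _ (alg_gr (B.alg l)) (B.xi l), zero_smul]
        · change W.tr X (e l' * e l * _) • _ = 0
          rw [tr_two h.H hn1 h.hD h.hb (alg_gr (B.alg l')) (alg_gr (B.alg l)) (B.xi l') (B.xi l),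
            B.orth, if_neg (by rintro rfl; exact ht rfl), mul_zero, zero_smul]
        · change W.tr X (x p * e l * _) • _ = 0
          rw [tr_two h.H hn1 h.hD h.hb (E.mem p).1 (alg_gr (B.alg l)) (hbx p) (B.xi l),
            (E.mem p).2 _ (B.alg l), mul_zero, zero_smul]
      · intro h; exact absurd (Finset.mem_univ _) h
    · rw [Finset.sum_eq_single (Sum.inr (p.1, !p.2))]
      · change W.tr X (x (p.1, !p.2) * x p * _) •
          (((cp n c s : ℚ) : W.K) * (-1 / 2))⁻¹ • x (p.1, !(!p.2)) = x p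
        have h2 : ((cp n c s : ℚ) : W.K) * (-1 / 2) ≠ 0 := mul_ne_zero hcpK (by norm_num)
        rw [tr_two h.H hn1 h.hD h.hb (E.mem _).1 (E.mem _).1 (hbx _) (hbx _), E.form,
          if_pos (by simp), smul_smul, mul_inv_cancel₀ h2, one_smul, Bool.not_not]
      · rintro ((_ | l) | p') _ ht
        · change W.tr X (W.cl X D * x p * _) • _ = 0
          rw [txi _ (E.mem p).1 (hbx p), zero_smul]
        · change W.tr X (e l * x p * _) • _ = 0
          rw [tr_two h.H hn1 h.hD h.hb (alg_gr (B.alg l)) (E.mem p).1 (B.xi l) (hbx p), hex,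
            mul_zero, zero_smul]
        · change W.tr X (x p' * x p * _) • _ = 0
          rw [tr_two h.H hn1 h.hD h.hb (E.mem _).1 (E.mem _).1 (hbx _) (hbx _), E.form,
            if_neg, mul_zero, zero_smul]
          rintro rfl
          apply ht
          simp
      · intro h; exact absurd (Finset.mem_univ _) h
  | zero => simp
  | add y z _ _ hy hz =>
    simp only [mul_add, add_mul, map_add, add_smul, Finset.sum_add_distrib]
    rw [hy, hz]
  | smul a y _ hy =>
    simp only [mul_smul_comm, smul_mul_assoc, map_smul, smul_eq_mul, mul_smul]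
    rw [← Finset.smul_sum, hy]

/-- The class on `X × X` of the operator which inverts the Lefschetz operator and applies the
Frobenius endomorphism. -/
lemma exists_cyc (hB : LefschetzB W X D) (m : ℕ) : ∃ z, X.IsCyc 2 z ∧ W.cl X z =
    ∑ a, gg D e x a * ((W.map f).toLinearMap ^ m) (gd D n c s e w x a) := by
  have hn1 := h.hn1
  obtain ⟨Φ, hΦ, hLam⟩ := lefschetzB_iff_rop.1 hB
  have hLh : IsHom (W.gr X) 2 (LinearMap.mulLeft W.K (W.cl X D)) := by
    simpa using rop_opAlg.hom (rop_mulLeft (W := W) h.hD)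
  have h1 := rop_opAlg.pow hΦ (2 * n - 2)
  have h2 := rop_opAlg.proj_mem (W.isInternal X) W_hbd (rop_mulLeft h.hD) h.hHL hΦ hLam
    (4 * n - 2)
  have h3 := rop_opAlg.pow (rop_map (W := W) f) m
  have h4 := rop_opAlg.mul h3 (rop_opAlg.mul h1 h2)
  obtain ⟨Y, hY, hYW⟩ := h4
  obtain ⟨q', hq', z, hz, hY'⟩ | ⟨hd, -⟩ := hY
  swap
  · have := h.hn
    have := h.hn2
    omega
  have hq2 : q' = 2 := by
    have := h.hn
    have := h.hn2
    omega
  subst hq2
  have hcorr : W.corr (W.cl _ z) = (W.map f).toLinearMap ^ m *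
      (Φ ^ (2 * n - 2) * proj (W.isInternal X) (4 * n - 2)) := by rw [← hY' W, hYW]
  -- the explicit class
  set C : W.H (X.prod X) := ∑ a, W.map (swap X X) (W.map (fst X X)
    (((W.map f).toLinearMap ^ m) (gd D n c s e w x a)) * W.map (snd X X) (gg D e x a)) with hC
  have hgd : ∀ a, gd D n c s e w x a ∈ W.gr X 2 := by
    rintro ((_ | l) | p)
    · exact smul_mem _ _ h.xi_mem
    · exact smul_mem _ _ (alg_gr (B.alg l))
    · exact smul_mem _ _ (E.mem _).1
  have hFgd : ∀ a, ((W.map f).toLinearMap ^ m) (gd D n c s e w x a) ∈ W.gr X 2 := by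
    intro a
    rw [← map_iter]
    exact W.map_mem _ (hgd a)
  have hcl : W.cl _ z = C := by
    rw [← sub_eq_zero]
    apply corr_inj
    have hsub : W.corr (W.cl _ z - C) = W.corr (W.cl _ z) - W.corr C := by
      apply eq_sub_of_add_eq
      rw [← corr_add, sub_add_cancel]
    have hsum : ∀ S : Finset (Idx N r), W.corr (∑ a ∈ S, W.map (swap X X) (W.map (fst X X)
        (((W.map f).toLinearMap ^ m) (gd D n c s e w x a)) * W.map (snd X X) (gg D e x a))) =
        ∑ a ∈ S, (W.tr X ∘ₗ LinearMap.mulLeft W.K (gg D e x a)).smulRight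
          (((W.map f).toLinearMap ^ m) (gd D n c s e w x a)) := by
      classical
      intro S
      induction S using Finset.induction_on with
      | empty => rw [Finset.sum_empty, Finset.sum_empty, corr_zero]
      | insert a S ha ih =>
        rw [Finset.sum_insert ha, Finset.sum_insert ha, corr_add, ih,
          corr_swap_tmul (hFgd a) (gg_mem h B E a)]
    rw [hsub, sub_eq_zero, hcorr, hC, hsum]
    apply gr_ext (W.isInternal X)
    intro i y hy
    rw [LinearMap.sum_apply]
    simp only [LinearMap.smulRight_apply, LinearMap.comp_apply, LinearMap.mulLeft_apply,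
      Module.End.mul_apply]
    by_cases hi : i = 4 * n - 2
    · subst hi
      rw [proj_same _ hy]
      obtain ⟨y', hy', rfl⟩ := (h.hHL 2 (by rw [h.hn]; omega)).2 y (by
        rw [h.hn]
        convert hy using 2
        omega)
      have hdim : X.dim - (2 * n - 2) = 2 := by rw [h.hn]; omega
      rw [show X.dim - 2 = 2 * n - 2 by rw [h.hn],
        lam_pow_L_pow hLh W_hbd h.hHL hLam (c := 2 * n - 2) (by rw [h.hn]; omega)
          (by rw [hdim]; exact hy')]
      have h5 := dual h B E hy'
      have h6 := congrArg ((W.map f).toLinearMap ^ m) h5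
      rw [map_sum] at h6
      rw [← h6]
      apply Finset.sum_congr rfl
      intro a _
      rw [map_smul, mulLeft_pow_apply', ← gr2_comm hy' (W.cl X D ^ (2 * n - 2)), ← mul_assoc]
    · rw [proj_ne _ hy hi, map_zero, map_zero]
      symm
      apply Finset.sum_eq_zero
      intro a _
      rw [W.tr_eq_zero (W.mul_mem (gg_mem h B E a) hy) (by rw [h.hn]; omega), zero_smul]
  refine ⟨ops.pull (diag X) z, ops.pull_mem _ hz, ?_⟩
  rw [W.cl_pull, hcl, hC, map_sum]
  apply Finset.sum_congr rfl
  intro a _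
  have e1 : diag X ≫ swap X X ≫ fst X X = 𝟙 X := by
    rw [swap_fst, diag, Obj.lift_snd]
  have e2 : diag X ≫ swap X X ≫ snd X X = 𝟙 X := by
    rw [swap_snd, diag, Obj.lift_fst]
  rw [map_mul (W.map (swap X X)), map_mul (W.map (diag X)), ← W.map_comp, ← W.map_comp,
    ← W.map_comp, ← W.map_comp, Category.assoc, Category.assoc, e1, e2, W.map_id, W.map_id,
    gr2_comm (hFgd a)]

end Data

end Pool.Agent.Y103.Vb
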