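import Pool.Agent.Y103.Vb.Theta

/-!
# The products of conjugate eigenvectors are real combinations of algebraic classes
-/

open CategoryTheory AlgebraicGeometry Submodule

universe u v

namespace Pool.Agent.Y103.Vb

open Pool.Agent.H914 Pool.Agent.H914.VarClass Pool.Agent.H914.VarClass.Obj
  Pool.Agent.H914.WeilCohomology Pool.Agent.H281R3.HT Pool.Agent.W552 Pool.Agent.Y103
  Pool.Agent.Y103.Fj

variable {k : Type u} [Field k] {𝒱 : VarClass k} {ops : CycleOps 𝒱}
  {W : WeilCohomology.{u, v} ops} {X : 𝒱.Obj} {D : X.Cycles} {n : ℕ}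
  {b : W.H X →ₗ[W.K] W.H X →ₗ[W.K] W.K} {c s : ℚ} {f : X ⟶ X} {q : ℕ}
  {ι : W.K ≃+* ℂ} {N r : ℕ} {e : Fin N → W.H X} {w : Fin N → ℚ} {x : Fin r × Bool → W.H X}
  {lam : Fin r × Bool → W.K}

/-- The exchange of conjugate eigenvectors. -/
def sw (p : Fin r × Bool) : Fin r × Bool := (p.1, !p.2)

lemma sw_sw (p : Fin r × Bool) : sw (sw p) = p := by
  rcases p with ⟨i, _ | _⟩ <;> rfl

lemma alg_map {j : ℕ} {y : W.H X} (hy : y ∈ algClasses W X j) (m : ℕ) :
    ((W.map f).toLinearMap ^ m) y ∈ algClasses W X j := by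
  obtain ⟨z, hz, rfl⟩ := hy
  refine ⟨ops.pull (iter f m) z, ops.pull_mem _ hz, ?_⟩
  rw [W.cl_pull, map_iter]

variable (h : Hyp W X D n b c s f q) (B : DivBasis W X D b N e w)
  (E : EigBasis ι b f q r x lam)

include h B E

/-- The classes of the powers of the Frobenius endomorphism. -/
lemma theta_alg (hB : LefschetzB W X D) (m : ℕ) :
    ∑ p, lam p ^ m • (x p * x (sw p)) ∈ algClasses W X 2 := by
  have hn1 := h.hn1
  have hcp := cp_pos hn1 h.H.pos h.hs
  have hcpK : ((cp n c s : ℚ) : W.K) ≠ 0 := by exact_mod_cast hcp.ne'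
  have hξ : W.cl X D ∈ algClasses W X 1 := ⟨D, h.hD, rfl⟩
  obtain ⟨z, hz, hcl⟩ := exists_cyc h B E hB m
  have hz' : W.cl X z ∈ algClasses W X 2 := ⟨z, hz, rfl⟩
  rw [hcl, Fintype.sum_sum_type, Fintype.sum_option] at hz'
  have h1 : gg D e x (Sum.inl none) * ((W.map f).toLinearMap ^ m)
      (gd D n c s e w x (Sum.inl none)) ∈ algClasses W X 2 := by
    change W.cl X D * ((W.map f).toLinearMap ^ m) (((c * s ^ n : ℚ) : W.K)⁻¹ • W.cl X D) ∈ _
    rw [map_smul, ← Rat.cast_inv]
    exact alg_mul hξ (alg_smul _ (alg_map hξ m))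
  have h2 : ∑ l, gg D e x (Sum.inl (some l)) * ((W.map f).toLinearMap ^ m)
      (gd D n c s e w x (Sum.inl (some l))) ∈ algClasses W X 2 := by
    have h3 : ∀ S : Finset (Fin N), ∑ l ∈ S, gg D e x (Sum.inl (some l)) *
        ((W.map f).toLinearMap ^ m) (gd D n c s e w x (Sum.inl (some l))) ∈
          algClasses W X 2 := by
      intro S
      induction S using Finset.induction_on with
      | empty => rw [Finset.sum_empty]; exact alg_zero 2
      | insert l S hl ih =>
        rw [Finset.sum_insert hl]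
        refine alg_add ?_ ih
        change e l * ((W.map f).toLinearMap ^ m) (((cp n c s * w l : ℚ) : W.K)⁻¹ • e l) ∈ _
        rw [map_smul, ← Rat.cast_inv]
        exact alg_mul (B.alg l) (alg_smul _ (alg_map (B.alg l) m))
    exact h3 _
  have h3 := alg_sub hz' (alg_add h1 h2)
  rw [add_sub_cancel_left] at h3
  have h4 := alg_smul (cp n c s * (-1 / 2)) h3
  have h5 : ((cp n c s * (-1 / 2) : ℚ) : W.K) • ∑ p, gg D e x (Sum.inr p) *
      ((W.map f).toLinearMap ^ m) (gd D n c s e w x (Sum.inr p)) =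
      ∑ p, lam p ^ m • (x p * x (sw p)) := by
    rw [Finset.smul_sum]
    refine Finset.sum_bij' (fun p _ => sw p) (fun p _ => sw p) (fun _ _ => Finset.mem_univ _)
      (fun _ _ => Finset.mem_univ _) (fun p _ => sw_sw p) (fun p _ => sw_sw p) ?_
    intro p _
    change ((cp n c s * (-1 / 2) : ℚ) : W.K) • (x p * ((W.map f).toLinearMap ^ m)
      ((((cp n c s : ℚ) : W.K) * (-1 / 2))⁻¹ • x (sw p))) = _
    have h6 : ((cp n c s : ℚ) : W.K) * (-1 / 2) ≠ 0 := mul_ne_zero hcpK (by norm_num)
    rw [map_smul, pow_iter_eig (E.eig (sw p)), mul_smul_comm, mul_smul_comm, smul_smul, sw_sw,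
      gr2_comm (E.mem p).1]
    have h7 : ((cp n c s * (-1 / 2) : ℚ) : W.K) = ((cp n c s : ℚ) : W.K) * (-1 / 2) := by
      push_cast; ring
    rw [h7, mul_inv_cancel₀ h6, one_smul]
  rw [h5] at h4
  exact h4

/-- The products of conjugate eigenvectors. -/
theorem pair_mem (hB : LefschetzB W X D) (p₀ : Fin r × Bool) :
    x p₀ * x (sw p₀) ∈ algR (realField ι) X := by
  classical
  set v : Fin r × Bool → W.K := fun p => if p.1 = p₀.1 then 1 / 4 else 0 with hv
  set Q₀ : Polynomial W.K := Lagrange.interpolate Finset.univ lam v with hQ₀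
  have hQe : ∀ p, Q₀.eval (lam p) = v p := fun p =>
    Lagrange.eval_interpolate_at_node v E.inj.injOn (Finset.mem_univ p)
  have hcv : ∀ p, cj ι (v p) = v p := by
    intro p
    have h1 : ∀ a : ℚ, cj ι (a : W.K) = a := fun a => cj_rat ι a
    rw [hv]
    beta_reduce
    split_ifs
    · have := h1 (1 / 4)
      push_cast at this
      exact this
    · rw [map_zero]
  set Q : Polynomial W.K := Q₀ + Q₀.map (cj ι) with hQ
  have hQ1 : ∀ p, Q.eval (lam p) = 2 * v p := by
    intro p
    have h1 : (Q₀.map (cj ι)).eval (lam p) = v p := by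
      have h2 : lam p = cj ι (lam (sw p)) := by
        rw [E.conj]
        exact congrArg lam (sw_sw p).symm
      have h3 := Polynomial.hom_eval₂ Q₀ (RingHom.id W.K) (cj ι) (lam (sw p))
      rw [RingHom.comp_id, Polynomial.eval₂_id, hQe, hcv] at h3
      rw [h2, Polynomial.eval_map, ← h3]
      rfl
    rw [hQ, Polynomial.eval_add, hQe, h1, two_mul]
  have hcoef : ∀ i, Q.coeff i ∈ (realField ι).R := by
    intro i
    rw [mem_realField, hQ, Polynomial.coeff_add, Polynomial.coeff_map, map_add, cj_cj, add_comm]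
  have h1 : ∑ p, Q.eval (lam p) • (x p * x (sw p)) ∈ algR (realField ι) X := by
    have h2 : ∑ p, Q.eval (lam p) • (x p * x (sw p)) =
        ∑ i ∈ Finset.range (Q.natDegree + 1), Q.coeff i • ∑ p, lam p ^ i • (x p * x (sw p)) := by
      simp only [Finset.smul_sum, smul_smul]
      rw [Finset.sum_comm]
      apply Finset.sum_congr rfl
      intro p _
      rw [Polynomial.eval_eq_sum_range, Finset.sum_smul]
    rw [h2]
    apply sum_mem
    intro i _
    apply VR_smul (hcoef i)
    exact subset_span ⟨2, theta_alg h B E hB i⟩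
  have h2 : ∑ p, Q.eval (lam p) • (x p * x (sw p)) = x p₀ * x (sw p₀) := by
    have h3 : ∀ p, Q.eval (lam p) • (x p * x (sw p)) =
        if p.1 = p₀.1 then (1 / 2 : W.K) • (x p * x (sw p)) else 0 := by
      intro p
      rw [hQ1, hv]
      beta_reduce
      split_ifs
      · congr 1
        norm_num
      · rw [mul_zero, zero_smul]
    simp only [h3]
    rw [Fintype.sum_prod_type, Finset.sum_eq_single p₀.1]
    · rw [Fintype.sum_bool]
      simp only [if_true]
      have h4 : x (p₀.1, true) * x (sw (p₀.1, true)) = x p₀ * x (sw p₀) := by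
        rcases p₀ with ⟨i, _ | _⟩
        · exact gr2_comm (E.mem _).1 _
        · rfl
      have h5 : x (p₀.1, false) * x (sw (p₀.1, false)) = x p₀ * x (sw p₀) := by
        rcases p₀ with ⟨i, _ | _⟩
        · rfl
        · exact gr2_comm (E.mem _).1 _
      rw [h4, h5, ← add_smul]
      norm_num
    · intro i _ hi
      rw [Fintype.sum_bool]
      simp only [if_neg hi, add_zero]
    · intro h; exact absurd (Finset.mem_univ _) h
  rw [← h2]
  exact h1

end Pool.Agent.Y103.Vb
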